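import Mathlib

set_option autoImplicit false

namespace Pool.Agent.Helper14

open Filter Topology

/-- The `3x+1` function on the integers: `n/2` for even `n`, `(3n+1)/2` for odd `n`. -/
def T (n : ℤ) : ℤ := if 2 ∣ n then n / 2 else (3 * n + 1) / 2

/-- The Letherman–Schleicher–Wood entire interpolation of the `3x+1` function. -/
noncomputable def f₀ (z : ℂ) : ℂ :=
  z / 2 + (z + 1 / 2) * ((1 - Complex.cos (Real.pi * z)) / 2)
    + 1 / Real.pi * (1 / 2 - Complex.cos (Real.pi * z)) * Complex.sin (Real.pi * z)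

/-- The iterates `f, f², f³, …` form a normal family on `U`: every sequence of them has a
subsequence that converges locally uniformly on `U`, either to a finite-valued function or to
infinity. -/
def IteratesNormalOn (f : ℂ → ℂ) (U : Set ℂ) : Prop :=
  ∀ φ : ℕ → ℕ, ∃ ψ : ℕ → ℕ, StrictMono ψ ∧
    ((∃ g : ℂ → ℂ, TendstoLocallyUniformlyOn (fun k => f^[φ (ψ k) + 1]) g atTop U) ∨
      (∀ K ⊆ U, IsCompact K → ∀ R : ℝ, ∀ᶠ k in atTop, ∀ z ∈ K, R < ‖f^[φ (ψ k) + 1] z‖))

/-- The Fatou set: points with an open neighbourhood on which the iterates form a normal family. -/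
def fatouSet (f : ℂ → ℂ) : Set ℂ :=
  {z | ∃ U : Set ℂ, IsOpen U ∧ z ∈ U ∧ IteratesNormalOn f U}

/-- `U` is a Fatou component of `f`: a connected component of the Fatou set. -/
def IsFatouComponent (f : ℂ → ℂ) (U : Set ℂ) : Prop :=
  ∃ z ∈ fatouSet f, U = connectedComponentIn (fatouSet f) z

/-- The Fatou component containing `z` (empty if `z` is not in the Fatou set). -/
def fatouComponent (f : ℂ → ℂ) (z : ℂ) : Set ℂ := connectedComponentIn (fatouSet f) z

/-- `U` is a wandering domain of `f`: it is a Fatou component and the Fatou components `V k`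
containing `f^k(U)`, `k = 0, 1, 2, …`, are pairwise distinct. -/
def IsWanderingDomain (f : ℂ → ℂ) (U : Set ℂ) : Prop :=
  IsFatouComponent f U ∧
    ∃ V : ℕ → Set ℂ, (∀ k, IsFatouComponent f (V k) ∧ f^[k] '' U ⊆ V k) ∧ Function.Injective V

end Pool.Agent.Helper14
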