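import Pool.Agent.Helper14.Fatou
import Pool.Agent.Collatz3.Words

set_option autoImplicit false

/-!
The ends of the words of the inverse `3x+1` tree above an arbitrary integer: they are distinct,
lie in the backward orbit, have the sign of the root and are bounded by the size of the word.
-/

namespace Pool.Agent.Helper14

open Pool.Agent.Collatz3

theorem T_two_mul (x : ℤ) : T (2 * x) = x := by
  unfold T
  rw [if_pos (Dvd.intro x rfl)]
  omega

theorem T_iter_pow (j : ℕ) (x : ℤ) : T^[j] (2 ^ j * x) = x := by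
  induction j with
  | zero => simp
  | succ j ih =>
    rw [Function.iterate_succ_apply, pow_succ, show (2 : ℤ) ^ j * 2 * x = 2 * (2 ^ j * x) by ring,
      T_two_mul, ih]

theorem T_step {i : ℕ} (hi : 1 ≤ i) {a x : ℤ} (h : 2 ^ i * a = 3 * x + 1) : T^[i] x = a := by
  obtain ⟨j, rfl⟩ : ∃ j, i = j + 1 := ⟨i - 1, by omega⟩
  have h1 : T x = 2 ^ j * a := by
    have e : (2 : ℤ) ^ (j + 1) * a = 2 * (2 ^ j * a) := by ring
    unfold T
    rw [if_neg (by omega)]
    omega
  rw [Function.iterate_succ_apply, h1, T_iter_pow]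

/-- A word leads from `a` to a point of the backward orbit of `a`. -/
theorem up_iter {a b : ℤ} {w : List ℕ} (h : Up a w b) (hw : ∀ i ∈ w, 1 ≤ i) :
    T^[w.sum] b = a := by
  induction w generalizing a with
  | nil =>
    have : a = b := h
    simp [this]
  | cons i w ih =>
    obtain ⟨x, hx, hu⟩ := h
    rw [List.sum_cons, Function.iterate_add_apply, ih hu fun j hj => hw j (List.mem_cons_of_mem _ hj)]
    exact T_step (hw i List.mem_cons_self) hx

theorem two_le_two_pow {i : ℕ} (hi : 1 ≤ i) : (2 : ℤ) ≤ 2 ^ i := by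
  calc (2 : ℤ) = 2 ^ 1 := by norm_num
    _ ≤ 2 ^ i := pow_le_pow_right₀ (by norm_num) hi

theorem up_pos {a b : ℤ} {w : List ℕ} (h : Up a w b) (ha : 0 < a) (hw : ∀ i ∈ w, 1 ≤ i) :
    0 < b := by
  induction w generalizing a with
  | nil =>
    have : a = b := h
    omega
  | cons i w ih =>
    obtain ⟨x, hx, hu⟩ := h
    refine ih hu ?_ fun j hj => hw j (List.mem_cons_of_mem _ hj)
    have h1 := two_le_two_pow (hw i List.mem_cons_self)
    have h2 : (2 : ℤ) * 1 ≤ 2 ^ i * a := by
      apply mul_le_mul h1 (by omega) (by norm_num) (by positivity)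
    omega

theorem up_neg {a b : ℤ} {w : List ℕ} (h : Up a w b) (ha : a < 0) : b < 0 := by
  have h1 := h.rel
  by_contra hb
  push Not at hb
  have h2 : (0 : ℤ) < 2 ^ w.sum := by positivity
  have h3 : (2 : ℤ) ^ w.sum * a < 0 := mul_neg_of_pos_of_neg h2 ha
  have h4 : (0 : ℤ) ≤ 3 ^ w.length * b := by positivity
  have h5 : (0 : ℤ) ≤ cw w := Int.natCast_nonneg _
  omega

theorem up_sign {a b : ℤ} {w : List ℕ} (h : Up a w b) (ha : a ≠ 0) (hw : ∀ i ∈ w, 1 ≤ i) :
    0 < b * a := by
  rcases lt_or_gt_of_ne ha with h1 | h1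
  · exact mul_pos_of_neg_of_neg (up_neg h h1) h1
  · exact mul_pos (up_pos h h1 hw) h1

/-- the end of a word is bounded by its size -/
theorem up_bound {a b : ℤ} {w : List ℕ} (h : Up a w b) (ha : a ≠ 0) :
    3 ^ w.length * |b| ≤ size w * |a| := by
  have h1 := h.rel
  have h2 : (3 : ℤ) ^ w.length * b = 2 ^ w.sum * a - cw w := by omega
  have h3 : |(3 : ℤ) ^ w.length * b| = 3 ^ w.length * |b| := by
    rw [abs_mul, abs_of_pos (by positivity : (0 : ℤ) < 3 ^ w.length)]
  rw [← h3, h2]
  have h4 : |(2 : ℤ) ^ w.sum * a - cw w| ≤ |(2 : ℤ) ^ w.sum * a| + |(cw w : ℤ)| := abs_sub _ _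
  have h5 : |(2 : ℤ) ^ w.sum * a| = 2 ^ w.sum * |a| := by
    rw [abs_mul, abs_of_pos (by positivity : (0 : ℤ) < 2 ^ w.sum)]
  have h6 : |(cw w : ℤ)| = cw w := abs_of_nonneg (Int.natCast_nonneg _)
  have h7 : (1 : ℤ) ≤ |a| := Int.one_le_abs ha
  rw [h5, h6] at h4
  have h8 : (cw w : ℤ) * 1 ≤ cw w * |a| := mul_le_mul_of_nonneg_left h7 (Int.natCast_nonneg _)
  unfold size
  push_cast
  rw [add_mul]
  linarith

theorem up_odd {a b : ℤ} {w : List ℕ} (h : Up a w b) (hw : ∀ i ∈ w, 1 ≤ i) (hne : w ≠ []) :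
    b % 2 = 1 := by
  induction w generalizing a with
  | nil => exact absurd rfl hne
  | cons i w ih =>
    obtain ⟨x, hx, hu⟩ := h
    by_cases h0 : w = []
    · subst h0
      have : x = b := hu
      subst this
      obtain ⟨j, rfl⟩ : ∃ j, i = j + 1 := ⟨i - 1, by
        have := hw i List.mem_cons_self
        omega⟩
      have e : (2 : ℤ) ^ (j + 1) * a = 2 * (2 ^ j * a) := by ring
      omega
    · exact ih hu (fun j hj => hw j (List.mem_cons_of_mem _ hj)) h0

theorem two_pow_mul_inj' {p q : ℕ} {x y : ℤ} (hx : x % 2 = 1) (hy : y % 2 = 1)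
    (h : 2 ^ p * x = 2 ^ q * y) : p = q ∧ x = y := by
  induction p generalizing q with
  | zero =>
    rcases q with _ | q
    · exact ⟨rfl, by simpa using h⟩
    · exfalso
      rw [pow_zero, one_mul, pow_succ] at h
      have : (2 : ℤ) ^ q * 2 * y = 2 * (2 ^ q * y) := by ring
      omega
  | succ p ih =>
    rcases q with _ | q
    · exfalso
      rw [pow_zero, one_mul, pow_succ] at h
      have : (2 : ℤ) ^ p * 2 * x = 2 * (2 ^ p * x) := by ring
      omega
    · have h1 : (2 : ℤ) ^ p * x = 2 ^ q * y := by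
        have e1 : (2 : ℤ) ^ (p + 1) * x = 2 * (2 ^ p * x) := by ring
        have e2 : (2 : ℤ) ^ (q + 1) * y = 2 * (2 ^ q * y) := by ring
        omega
      obtain ⟨r1, r2⟩ := ih h1
      exact ⟨by omega, r2⟩

/-- two words of the same length from `a ≠ 0` with the same end are equal -/
theorem up_word_unique {a b : ℤ} (ha : a ≠ 0) : ∀ (n : ℕ) (w w' : List ℕ), w.length = n →
    w'.length = n → (∀ i ∈ w, 1 ≤ i) → (∀ i ∈ w', 1 ≤ i) → Up a w b → Up a w' b → w = w' := by
  intro n
  induction n generalizing b with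
  | zero =>
    intro w w' h1 h2 _ _ _ _
    rw [List.length_eq_zero_iff] at h1 h2
    rw [h1, h2]
  | succ n ih =>
    intro w w' h1 h2 hw hw' hu hu'
    -- split off the last letter
    obtain ⟨v, i, rfl⟩ : ∃ v i, w = v ++ [i] := by
      have hne : w ≠ [] := by
        rintro rfl
        simp at h1
      exact ⟨w.dropLast, w.getLast hne, (List.dropLast_append_getLast hne).symm⟩
    obtain ⟨v', i', rfl⟩ : ∃ v i, w' = v ++ [i] := by
      have hne : w' ≠ [] := by
        rintro rfl
        simp at h2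
      exact ⟨w'.dropLast, w'.getLast hne, (List.dropLast_append_getLast hne).symm⟩
    rw [List.length_append, List.length_singleton] at h1 h2
    obtain ⟨c, hc, x, hx, hxb⟩ := Up.append_iff.1 hu
    obtain ⟨c', hc', x', hx', hxb'⟩ := Up.append_iff.1 hu'
    have hxb2 : x = b := hxb
    have hxb2' : x' = b := hxb'
    subst hxb2
    rw [hxb2'] at hx'
    have hv : ∀ j ∈ v, 1 ≤ j := fun j hj => hw j (List.mem_append_left _ hj)
    have hv' : ∀ j ∈ v', 1 ≤ j := fun j hj => hw' j (List.mem_append_left _ hj)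
    rcases n with _ | n
    · have e1 : v = [] := List.length_eq_zero_iff.1 (by omega)
      have e2 : v' = [] := List.length_eq_zero_iff.1 (by omega)
      subst e1 e2
      have e3 : a = c := hc
      have e4 : a = c' := hc'
      subst e3
      subst e4
      have e5 : (2 : ℤ) ^ i = 2 ^ i' := mul_right_cancel₀ ha (hx.trans hx'.symm)
      have e6 : i = i' := Int.pow_right_injective (by norm_num) e5
      rw [e6]
    · have o1 := up_odd hc hv (by
        rintro rfl
        simp at h1)
      have o2 := up_odd hc' hv' (by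
        rintro rfl
        simp at h2)
      obtain ⟨r1, r2⟩ := two_pow_mul_inj' o1 o2 (hx.trans hx'.symm)
      subst r2
      rw [ih v v' (by omega) (by omega) hv hv' hc hc', r1]

/-- The integers of the backward orbit of `a` with the sign of `a` and absolute value at most `x`. -/
def Back (a : ℤ) (x : ℝ) : Set ℤ := {b : ℤ | 0 < b * a ∧ |(b : ℝ)| ≤ x ∧ ∃ k, T^[k] b = a}

theorem abs_le_finite (x : ℝ) : {b : ℤ | |(b : ℝ)| ≤ x}.Finite := by
  refine (Set.finite_Icc (-⌈x⌉) ⌈x⌉).subset ?_
  intro b hb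
  have hb' : |(b : ℝ)| ≤ x := hb
  rw [abs_le] at hb'
  have h1 : x ≤ ⌈x⌉ := Int.le_ceil x
  constructor
  · have : (-(⌈x⌉ : ℤ) : ℝ) ≤ b := by
      push_cast
      linarith
    exact_mod_cast this
  · have : (b : ℝ) ≤ (⌈x⌉ : ℝ) := by linarith
    exact_mod_cast this

theorem back_finite (a : ℤ) (x : ℝ) : (Back a x).Finite :=
  (abs_le_finite x).subset fun _ h => h.2.1

theorem cnt_le_back {a : ℤ} (ha : a ≠ 0) (n : ℕ) {B x : ℝ} (hB : B * |(a : ℝ)| ≤ 3 ^ n * x) :
    cnt a n B ≤ (Back a x).ncard := by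
  classical
  let f : List ℕ → ℤ := fun w => if h : Ok a w then Classical.choose h else 0
  have hf : ∀ w ∈ paths a n B, Up a w (f w) := by
    rintro w ⟨_, _, _, h4⟩
    simp only [f, dif_pos h4]
    exact (Classical.choose_spec h4).1
  unfold cnt
  refine Set.ncard_le_ncard_of_injOn f ?_ ?_ (back_finite a x)
  · intro w hw
    have hu := hf w hw
    refine ⟨up_sign hu ha hw.2.1, ?_, w.sum, up_iter hu hw.2.1⟩
    have h1 := up_bound hu ha
    have h2 : (3 : ℝ) ^ w.length * |(f w : ℝ)| ≤ size w * |(a : ℝ)| := by exact_mod_cast h1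
    rw [hw.1] at h2
    have h3 : (size w : ℝ) * |(a : ℝ)| ≤ B * |(a : ℝ)| :=
      mul_le_mul_of_nonneg_right hw.2.2.1 (abs_nonneg _)
    exact le_of_mul_le_mul_left (h2.trans (h3.trans hB)) (by positivity)
  · intro w hw w' hw' hww
    have hu := hf w hw
    have hu' := hf w' hw'
    rw [← hww] at hu'
    exact up_word_unique ha n w w' hw.1 hw'.1 hw.2.1 hw'.2.1 hu hu'

end Pool.Agent.Helper14
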