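import Pool.Agent.Helper14.FatouDefs

set_option autoImplicit false

namespace Pool.Agent.Helper14

open Filter Topology

lemma norm_cos_sub_one_le {u : ℂ} (hu : ‖u‖ ≤ 1) : ‖Complex.cos u - 1‖ ≤ ‖u‖ ^ 2 := by
  have h1 : ‖u * Complex.I‖ ≤ 1 := by simpa using hu
  have h2 : ‖-u * Complex.I‖ ≤ 1 := by simpa using hu
  have e1 := Complex.norm_exp_sub_one_sub_id_le h1
  have e2 := Complex.norm_exp_sub_one_sub_id_le h2
  have e : Complex.cos u - 1 = ((Complex.exp (u * Complex.I) - 1 - u * Complex.I)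
      + (Complex.exp (-u * Complex.I) - 1 - (-u * Complex.I))) / 2 := by
    rw [Complex.cos]; ring
  rw [e, norm_div, RCLike.norm_ofNat]
  have := norm_add_le (Complex.exp (u * Complex.I) - 1 - u * Complex.I)
    (Complex.exp (-u * Complex.I) - 1 - (-u * Complex.I))
  simp only [norm_mul, norm_neg, Complex.norm_I, mul_one] at e1 e2
  linarith

lemma norm_sin_sub_le {u : ℂ} (hu : ‖u‖ ≤ 1) : ‖Complex.sin u - u‖ ≤ ‖u‖ ^ 2 := by
  have h1 : ‖u * Complex.I‖ ≤ 1 := by simpa using hu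
  have h2 : ‖-u * Complex.I‖ ≤ 1 := by simpa using hu
  have e1 := Complex.norm_exp_sub_one_sub_id_le h1
  have e2 := Complex.norm_exp_sub_one_sub_id_le h2
  have e : Complex.sin u - u = ((Complex.exp (-u * Complex.I) - 1 - (-u * Complex.I))
      - (Complex.exp (u * Complex.I) - 1 - u * Complex.I)) * Complex.I / 2 := by
    rw [Complex.sin]; ring_nf; rw [Complex.I_sq]; ring
  rw [e, norm_div, RCLike.norm_ofNat, norm_mul, Complex.norm_I, mul_one]
  have := norm_sub_le (Complex.exp (-u * Complex.I) - 1 - (-u * Complex.I))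
    (Complex.exp (u * Complex.I) - 1 - u * Complex.I)
  simp only [norm_mul, norm_neg, Complex.norm_I, mul_one] at e1 e2
  linarith

lemma cos_two_mul_int (m : ℤ) (w : ℂ) :
    Complex.cos (Real.pi * ((2 * m : ℤ) + w)) = Complex.cos (Real.pi * w) := by
  have : (Real.pi * ((2 * m : ℤ) + w) : ℂ) = Real.pi * w + m * (2 * Real.pi) := by
    push_cast; ring
  rw [this, Complex.cos_add_int_mul_two_pi]

lemma sin_two_mul_int (m : ℤ) (w : ℂ) :
    Complex.sin (Real.pi * ((2 * m : ℤ) + w)) = Complex.sin (Real.pi * w) := by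
  have : (Real.pi * ((2 * m : ℤ) + w) : ℂ) = Real.pi * w + m * (2 * Real.pi) := by
    push_cast; ring
  rw [this, Complex.sin_add_int_mul_two_pi]

lemma cos_two_mul_add_one_int (m : ℤ) (w : ℂ) :
    Complex.cos (Real.pi * ((2 * m + 1 : ℤ) + w)) = -Complex.cos (Real.pi * w) := by
  have : (Real.pi * ((2 * m + 1 : ℤ) + w) : ℂ) = (Real.pi * w + Real.pi) + m * (2 * Real.pi) := by
    push_cast; ring
  rw [this, Complex.cos_add_int_mul_two_pi, Complex.cos_add_pi]

lemma sin_two_mul_add_one_int (m : ℤ) (w : ℂ) :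
    Complex.sin (Real.pi * ((2 * m + 1 : ℤ) + w)) = -Complex.sin (Real.pi * w) := by
  have : (Real.pi * ((2 * m + 1 : ℤ) + w) : ℂ) = (Real.pi * w + Real.pi) + m * (2 * Real.pi) := by
    push_cast; ring
  rw [this, Complex.sin_add_int_mul_two_pi, Complex.sin_add_pi]

lemma pi_bounds : (3 : ℝ) < Real.pi ∧ Real.pi < 3.15 := ⟨Real.pi_gt_three, Real.pi_lt_d2⟩

/-- Quadratic contraction near the integers. -/
lemma norm_f₀_sub_le (n : ℤ) {w : ℂ} (hw : ‖w‖ ≤ 1 / 7) :
    ‖f₀ ((n : ℂ) + w) - (T n : ℂ)‖ ≤ 13 * (|(n : ℝ)| + 1) * ‖w‖ ^ 2 := by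
  have hπ := pi_bounds
  have hπ0 : (Real.pi : ℂ) ≠ 0 := by exact_mod_cast Real.pi_ne_zero
  set c := Complex.cos (Real.pi * w) with hc
  set s := Complex.sin (Real.pi * w) with hs
  have hpw : ‖(Real.pi * w : ℂ)‖ = Real.pi * ‖w‖ := by
    rw [norm_mul, Complex.norm_real, Real.norm_of_nonneg Real.pi_pos.le]
  have hpw2 : ‖(2 * (Real.pi * w) : ℂ)‖ = 2 * (Real.pi * ‖w‖) := by
    rw [norm_mul, hpw, RCLike.norm_ofNat]
  have hwn : 0 ≤ ‖w‖ := norm_nonneg w
  have b1 : ‖c - 1‖ ≤ (Real.pi * ‖w‖) ^ 2 := by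
    have := norm_cos_sub_one_le (u := Real.pi * w) (by rw [hpw]; nlinarith)
    rwa [hpw] at this
  have b2 : ‖s - Real.pi * w‖ ≤ (Real.pi * ‖w‖) ^ 2 := by
    have := norm_sin_sub_le (u := Real.pi * w) (by rw [hpw]; nlinarith)
    rwa [hpw] at this
  have b3 : ‖2 * s * c - 2 * (Real.pi * w)‖ ≤ (2 * (Real.pi * ‖w‖)) ^ 2 := by
    have := norm_sin_sub_le (u := 2 * (Real.pi * w)) (by rw [hpw2]; nlinarith)
    rwa [hpw2, Complex.sin_two_mul] at this
  have hnw : ‖(n : ℂ) + w + 1 / 2‖ ≤ |(n : ℝ)| + 1 := by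
    have h1 : ‖(n : ℂ) + w + 1 / 2‖ ≤ ‖(n : ℂ)‖ + ‖w‖ + ‖(1 / 2 : ℂ)‖ := norm_add₃_le
    have h2 : ‖(n : ℂ)‖ = |(n : ℝ)| := by
      rw [← Complex.ofReal_intCast, Complex.norm_real, Real.norm_eq_abs]
    have h3 : ‖(1 / 2 : ℂ)‖ = 1 / 2 := by norm_num
    rw [h2, h3] at h1
    linarith
  have hfin : (|(n : ℝ)| + 1) * (Real.pi * ‖w‖) ^ 2 / 2
      + ((Real.pi * ‖w‖) ^ 2 + (2 * (Real.pi * ‖w‖)) ^ 2) / (2 * Real.pi)
      ≤ 13 * (|(n : ℝ)| + 1) * ‖w‖ ^ 2 := by
    have e : ((Real.pi * ‖w‖) ^ 2 + (2 * (Real.pi * ‖w‖)) ^ 2) / (2 * Real.pi)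
        = 5 / 2 * Real.pi * ‖w‖ ^ 2 := by
      field_simp; ring
    rw [e]
    have ha : 0 ≤ |(n : ℝ)| := abs_nonneg _
    have h1 : Real.pi ^ 2 ≤ 10 := by nlinarith
    have h2 : (|(n : ℝ)| + 1) * (Real.pi * ‖w‖) ^ 2 / 2 ≤ 5 * (|(n : ℝ)| + 1) * ‖w‖ ^ 2 := by
      have h3 : 0 ≤ (|(n : ℝ)| + 1) * ‖w‖ ^ 2 := by positivity
      nlinarith
    have h4 : 5 / 2 * Real.pi * ‖w‖ ^ 2 ≤ 8 * (|(n : ℝ)| + 1) * ‖w‖ ^ 2 := by
      have h5 : 0 ≤ ‖w‖ ^ 2 := by positivity
      have h6 : 0 ≤ |(n : ℝ)| * ‖w‖ ^ 2 := by positivity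
      nlinarith
    linarith
  -- the key decomposition
  have key : ∀ ε : ℂ, ‖ε‖ = 1 → ∀ A : ℂ, ‖A‖ ≤ (Real.pi * ‖w‖) ^ 2 + (2 * (Real.pi * ‖w‖)) ^ 2 →
      ‖ε * (((n : ℂ) + w + 1 / 2) * ((1 - c) / 2)) + 1 / (2 * Real.pi) * A‖
        ≤ 13 * (|(n : ℝ)| + 1) * ‖w‖ ^ 2 := by
    intro ε hε A hA
    refine (norm_add_le _ _).trans (le_trans (add_le_add ?_ ?_) hfin)
    · rw [norm_mul, hε, one_mul, norm_mul, norm_div, RCLike.norm_ofNat, norm_sub_rev]
      calc ‖(n : ℂ) + w + 1 / 2‖ * (‖c - 1‖ / 2)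
          ≤ (|(n : ℝ)| + 1) * ((Real.pi * ‖w‖) ^ 2 / 2) := by
            gcongr
        _ = _ := by ring
    · rw [norm_mul, norm_div, norm_mul, Complex.norm_real, Real.norm_of_nonneg Real.pi_pos.le,
        RCLike.norm_ofNat, norm_one]
      calc 1 / (2 * Real.pi) * ‖A‖
          ≤ 1 / (2 * Real.pi) * ((Real.pi * ‖w‖) ^ 2 + (2 * (Real.pi * ‖w‖)) ^ 2) := by
            gcongr
        _ = _ := by ring
  rcases Int.even_or_odd' n with ⟨m, rfl | rfl⟩
  · have hT : T (2 * m) = m := by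
      rw [T, if_pos (Dvd.intro _ rfl)]; omega
    have e : f₀ (((2 * m : ℤ) : ℂ) + w) - (T (2 * m) : ℂ)
        = 1 * ((((2 * m : ℤ) : ℂ) + w + 1 / 2) * ((1 - c) / 2))
          + 1 / (2 * Real.pi) * ((s - Real.pi * w) - (2 * s * c - 2 * (Real.pi * w))) := by
      rw [f₀, cos_two_mul_int, sin_two_mul_int, hT, ← hc, ← hs]
      push_cast
      field_simp
      ring
    rw [e]
    exact key 1 (by simp) _ ((norm_sub_le _ _).trans (add_le_add b2 b3))
  · have hT : T (2 * m + 1) = 3 * m + 2 := by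
      rw [T, if_neg (by omega)]; omega
    have e : f₀ (((2 * m + 1 : ℤ) : ℂ) + w) - (T (2 * m + 1) : ℂ)
        = (-1) * ((((2 * m + 1 : ℤ) : ℂ) + w + 1 / 2) * ((1 - c) / 2))
          + 1 / (2 * Real.pi) * (-(s - Real.pi * w) - (2 * s * c - 2 * (Real.pi * w))) := by
      rw [f₀, cos_two_mul_add_one_int, sin_two_mul_add_one_int, hT, ← hc, ← hs]
      push_cast
      field_simp
      ring
    rw [e]
    refine key (-1) (by simp) _ ((norm_sub_le _ _).trans (add_le_add ?_ b3))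
    rw [norm_neg]; exact b2

lemma f₀_intCast (n : ℤ) : f₀ n = (T n : ℂ) := by
  have := norm_f₀_sub_le n (w := 0) (by simp)
  simp only [add_zero, norm_zero] at this
  have h : ‖f₀ (n : ℂ) - (T n : ℂ)‖ ≤ 0 := by simpa using this
  exact sub_eq_zero.1 (norm_le_zero_iff.1 h)

lemma f₀_iter_intCast (n : ℤ) (k : ℕ) : f₀^[k] n = ((T^[k] n : ℤ) : ℂ) := by
  induction k with
  | zero => simp
  | succ k ih => rw [Function.iterate_succ_apply', ih, f₀_intCast, Function.iterate_succ_apply']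

/-- The radius of the controlled disc at the integer `n`. -/
noncomputable def rad (n : ℤ) : ℝ := 1 / (26 * (|(n : ℝ)| + 1))

lemma rad_pos (n : ℤ) : 0 < rad n := by unfold rad; positivity

lemma rad_le (n : ℤ) : rad n ≤ 1 / 7 := by
  unfold rad
  have ha : 0 ≤ |(n : ℝ)| := abs_nonneg _
  apply one_div_le_one_div_of_le <;> nlinarith

lemma abs_T_le (n : ℤ) : |T n| + 1 ≤ 2 * (|n| + 1) := by
  unfold T
  split_ifs with h
  · rcases abs_cases n with ⟨h1, h2⟩ | ⟨h1, h2⟩ <;> rcases abs_cases (n / 2) with ⟨h3, h4⟩ | ⟨h3, h4⟩ <;> omega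
  · rcases abs_cases n with ⟨h1, h2⟩ | ⟨h1, h2⟩ <;>
      rcases abs_cases ((3 * n + 1) / 2) with ⟨h3, h4⟩ | ⟨h3, h4⟩ <;> omega

lemma half_rad_le (n : ℤ) : rad n / 2 ≤ rad (T n) := by
  unfold rad
  have h := abs_T_le n
  have h' : (|(T n : ℝ)| + 1) ≤ 2 * (|(n : ℝ)| + 1) := by exact_mod_cast h
  rw [div_div]
  apply one_div_le_one_div_of_le
  · positivity
  · nlinarith

lemma norm_f₀_sub_le_half {n : ℤ} {z : ℂ} (hz : ‖z - n‖ ≤ rad n) :
    ‖f₀ z - (T n : ℂ)‖ ≤ ‖z - n‖ / 2 := by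
  have h := norm_f₀_sub_le n (w := z - n) (hz.trans (rad_le n))
  rw [add_sub_cancel] at h
  refine h.trans ?_
  have h0 : 0 ≤ ‖z - n‖ := norm_nonneg _
  have h1 : 13 * (|(n : ℝ)| + 1) * ‖z - n‖ ≤ 1 / 2 := by
    have : 13 * (|(n : ℝ)| + 1) * ‖z - n‖ ≤ 13 * (|(n : ℝ)| + 1) * rad n := by gcongr
    refine this.trans ?_
    unfold rad
    have : (|(n : ℝ)| + 1) ≠ 0 := by positivity
    field_simp
    norm_num
  nlinarith

lemma norm_f₀_iter_sub_le {n : ℤ} {z : ℂ} (hz : ‖z - n‖ ≤ rad n) (k : ℕ) :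
    ‖f₀^[k] z - ((T^[k] n : ℤ) : ℂ)‖ ≤ rad (T^[k] n) ∧
      ‖f₀^[k] z - ((T^[k] n : ℤ) : ℂ)‖ ≤ ‖z - n‖ / 2 ^ k := by
  induction k with
  | zero => simpa using hz
  | succ k ih =>
    rw [Function.iterate_succ_apply', Function.iterate_succ_apply']
    have h := norm_f₀_sub_le_half ih.1
    constructor
    · refine h.trans (le_trans ?_ (half_rad_le _))
      linarith [ih.1]
    · refine h.trans ?_
      rw [pow_succ, ← div_div]
      linarith [ih.2]

/-- Every integer lies in the Fatou set of `f₀`. -/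
theorem intCast_mem_fatouSet (n : ℤ) : (n : ℂ) ∈ fatouSet f₀ := by
  refine ⟨Metric.ball (n : ℂ) (rad n), Metric.isOpen_ball, Metric.mem_ball_self (rad_pos n), ?_⟩
  intro φ
  have hball : ∀ z ∈ Metric.ball (n : ℂ) (rad n), ‖z - n‖ ≤ rad n := by
    intro z hz
    rw [Metric.mem_ball, dist_eq_norm] at hz
    exact hz.le
  -- case A : some index is taken infinitely often
  by_cases hA : ∃ k₀, ∃ᶠ j in atTop, φ j = k₀
  · obtain ⟨k₀, hk₀⟩ := hA
    obtain ⟨ψ, hψ, hψ'⟩ := extraction_of_frequently_atTop hk₀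
    refine ⟨ψ, hψ, Or.inl ⟨f₀^[k₀ + 1], ?_⟩⟩
    have : (fun k => f₀^[φ (ψ k) + 1]) = fun _ => f₀^[k₀ + 1] := by
      funext k; rw [hψ' k]
    rw [this]
    intro u hu x hx
    refine ⟨Set.univ, Filter.univ_mem, Eventually.of_forall fun _ y _ => refl_mem_uniformity hu⟩
  · push Not at hA
    have hφ : Tendsto φ atTop atTop := by
      rw [tendsto_atTop]
      intro b
      have : ∀ k₀ ∈ Finset.range b, ∀ᶠ j in atTop, φ j ≠ k₀ := fun k₀ _ => hA k₀
      have := (Filter.eventually_all_finset (Finset.range b)).2 this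
      filter_upwards [this] with j hj
      by_contra hcon
      push Not at hcon
      exact hj (φ j) (Finset.mem_range.2 hcon) rfl
    by_cases hB : ∃ m : ℤ, ∃ᶠ j in atTop, T^[φ j + 1] n = m
    · obtain ⟨m, hm⟩ := hB
      obtain ⟨ψ, hψ, hψ'⟩ := extraction_of_frequently_atTop hm
      refine ⟨ψ, hψ, Or.inl ⟨fun _ => (m : ℂ), ?_⟩⟩
      apply TendstoUniformlyOn.tendstoLocallyUniformlyOn
      rw [Metric.tendstoUniformlyOn_iff]
      intro ε hε
      have hlim : Tendsto (fun k => rad n / 2 ^ (φ (ψ k) + 1)) atTop (𝓝 0) := by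
        have h1 : Tendsto (fun k : ℕ => rad n / 2 ^ k) atTop (𝓝 0) := by
          have := (tendsto_pow_atTop_nhds_zero_of_lt_one (r := (1 / 2 : ℝ)) (by norm_num)
            (by norm_num)).const_mul (rad n)
          simpa [div_eq_mul_inv] using this
        have h2 : Tendsto (fun k => φ (ψ k) + 1) atTop atTop :=
          (tendsto_add_atTop_nat 1).comp (hφ.comp hψ.tendsto_atTop)
        exact h1.comp h2
      filter_upwards [hlim.eventually_lt_const hε] with k hk z hz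
      have h3 := (norm_f₀_iter_sub_le (hball z hz) (φ (ψ k) + 1)).2
      rw [hψ' k] at h3
      rw [dist_comm, dist_eq_norm]
      refine h3.trans_lt (lt_of_le_of_lt ?_ hk)
      gcongr
      exact hball z hz
    · push Not at hB
      refine ⟨id, strictMono_id, Or.inr ?_⟩
      intro K hK _ R
      -- |T^(φ j + 1) n| → ∞
      have hfin : ∀ᶠ j in atTop, ∀ m ∈ Finset.Icc (-(⌈|R| + 1⌉)) (⌈|R| + 1⌉), T^[φ j + 1] n ≠ m :=
        (Filter.eventually_all_finset _).2 (fun m _ => hB m)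
      filter_upwards [hfin] with j hj z hz
      have h3 := (norm_f₀_iter_sub_le (hball z (hK hz)) (φ j + 1)).1
      have h4 := rad_le (T^[φ j + 1] n)
      have h5 : |R| + 1 < |((T^[φ j + 1] n : ℤ) : ℝ)| := by
        by_contra hcon
        push Not at hcon
        have h6 : |(T^[φ j + 1] n : ℤ)| ≤ ⌈|R| + 1⌉ := by
          have : ((|(T^[φ j + 1] n : ℤ)| : ℤ) : ℝ) ≤ |R| + 1 := by
            rw [Int.cast_abs]; exact hcon
          exact_mod_cast this.trans (Int.le_ceil _)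
        rw [abs_le] at h6
        exact hj _ (Finset.mem_Icc.2 h6) rfl
      have h7 : ‖((T^[φ j + 1] n : ℤ) : ℂ)‖ = |((T^[φ j + 1] n : ℤ) : ℝ)| := by
        rw [← Complex.ofReal_intCast, Complex.norm_real, Real.norm_eq_abs]
      have h8 : ‖((T^[φ j + 1] n : ℤ) : ℂ)‖ ≤ ‖f₀^[φ j + 1] z - ((T^[φ j + 1] n : ℤ) : ℂ)‖
          + ‖f₀^[φ j + 1] z‖ := by
        have := norm_sub_le (f₀^[φ j + 1] z) (f₀^[φ j + 1] z - ((T^[φ j + 1] n : ℤ) : ℂ))
        rw [sub_sub_cancel] at this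
        linarith
      have h9 : R ≤ |R| := le_abs_self R
      simp only [id]
      linarith

lemma differentiable_f₀ : Differentiable ℂ f₀ := by
  unfold f₀
  fun_prop

lemma isOpen_f₀_image {U : Set ℂ} (hU : IsOpen U) : IsOpen (f₀ '' U) := by
  have h : AnalyticOnNhd ℂ f₀ Set.univ := fun z _ => differentiable_f₀.analyticAt z
  rcases h.is_constant_or_isOpen isPreconnected_univ with ⟨w, hw⟩ | h
  · exfalso
    have h0 := hw ((0 : ℤ) : ℂ) trivial
    have h1 := hw ((1 : ℤ) : ℂ) trivial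
    rw [f₀_intCast] at h0 h1
    rw [← h1] at h0
    have : T 0 = T 1 := by exact_mod_cast h0
    exact absurd this (by decide)
  · exact h U (Set.subset_univ _) hU

/-- The Fatou set is forward invariant. -/
theorem f₀_mem_fatouSet {z : ℂ} (hz : z ∈ fatouSet f₀) : f₀ z ∈ fatouSet f₀ := by
  obtain ⟨U, hU, hzU, hN⟩ := hz
  refine ⟨f₀ '' U, isOpen_f₀_image hU, Set.mem_image_of_mem _ hzU, ?_⟩
  intro φ
  obtain ⟨ψ, hψ, h⟩ := hN (fun k => φ k + 1)
  refine ⟨ψ, hψ, ?_⟩
  have hit : ∀ k y, f₀^[φ (ψ k) + 1 + 1] y = f₀^[φ (ψ k) + 1] (f₀ y) := fun k y => by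
    rw [Function.iterate_succ_apply]
  rcases h with ⟨g, hg⟩ | h
  · left
    classical
    let g' : ℂ → ℂ := fun w => if h : w ∈ f₀ '' U then g h.choose else 0
    have hg' : ∀ y ∈ U, g' (f₀ y) = g y := by
      intro y hy
      have hm : f₀ y ∈ f₀ '' U := Set.mem_image_of_mem _ hy
      have e : g' (f₀ y) = g hm.choose := by
        simp only [g']
        rw [dif_pos hm]
      rw [e]
      have h1 := hg.tendsto_at hm.choose_spec.1
      have h2 := hg.tendsto_at hy
      simp only [hit] at h1 h2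
      rw [hm.choose_spec.2] at h1
      exact tendsto_nhds_unique h1 h2
    refine ⟨g', ?_⟩
    intro u hu w hw
    obtain ⟨y, hy, rfl⟩ := hw
    obtain ⟨t, ht, ht'⟩ := hg u hu y hy
    rw [hU.nhdsWithin_eq hy] at ht
    obtain ⟨V, hV, hVo, hyV⟩ := mem_nhds_iff.1 ht
    refine ⟨f₀ '' (V ∩ U), ?_, ?_⟩
    · apply mem_nhdsWithin_of_mem_nhds
      exact (isOpen_f₀_image (hVo.inter hU)).mem_nhds ⟨y, ⟨hyV, hy⟩, rfl⟩
    · filter_upwards [ht'] with k hk
      rintro _ ⟨x, hx, rfl⟩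
      have := hk x (hV hx.1)
      rw [hg' x hx.2]
      simpa only [hit] using this
  · right
    intro K hK hKc R
    -- find a compact subset of `U` whose image covers `K`
    have hcov : ∃ K' ⊆ U, IsCompact K' ∧ K ⊆ f₀ '' K' := by
      have hch : ∀ w ∈ K, ∃ y ∈ U, f₀ y = w := fun w hw => hK hw
      choose! y hyU hyw using hch
      have hr : ∀ w ∈ K, ∃ r > 0, Metric.closedBall (y w) r ⊆ U := fun w hw =>
        Metric.nhds_basis_closedBall.mem_iff.1 (hU.mem_nhds (hyU w hw))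
      choose! r hr0 hrU using hr
      obtain ⟨t, htK, htc⟩ := hKc.elim_nhds_subcover (fun w => f₀ '' Metric.ball (y w) (r w))
        (fun w hw => (isOpen_f₀_image Metric.isOpen_ball).mem_nhds
          ⟨y w, Metric.mem_ball_self (hr0 w hw), hyw w hw⟩)
      refine ⟨⋃ w ∈ t, Metric.closedBall (y w) (r w), ?_, ?_, ?_⟩
      · exact Set.iUnion₂_subset fun w hw => hrU w (htK w hw)
      · exact t.isCompact_biUnion fun w _ => isCompact_closedBall _ _
      · intro x hx
        obtain ⟨w, hw, hxw⟩ := Set.mem_iUnion₂.1 (htc hx)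
        obtain ⟨v, hv, rfl⟩ := hxw
        exact ⟨v, Set.mem_iUnion₂.2 ⟨w, hw, Metric.ball_subset_closedBall hv⟩, rfl⟩
    obtain ⟨K', hK'U, hK'c, hKK'⟩ := hcov
    filter_upwards [h K' hK'U hK'c R] with k hk z hz
    obtain ⟨x, hx, rfl⟩ := hKK' hz
    have := hk x hx
    rwa [hit] at this

theorem f₀_iter_mem_fatouSet {z : ℂ} (hz : z ∈ fatouSet f₀) (k : ℕ) : f₀^[k] z ∈ fatouSet f₀ := by
  induction k with
  | zero => exact hz
  | succ k ih => rw [Function.iterate_succ_apply']; exact f₀_mem_fatouSet ih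

lemma image_fatouComponent {z : ℂ} (hz : z ∈ fatouSet f₀) :
    f₀ '' fatouComponent f₀ z ⊆ fatouComponent f₀ (f₀ z) := by
  apply IsPreconnected.subset_connectedComponentIn
  · exact isPreconnected_connectedComponentIn.image _ differentiable_f₀.continuous.continuousOn
  · exact Set.mem_image_of_mem _ (mem_connectedComponentIn hz)
  · rintro _ ⟨x, hx, rfl⟩
    exact f₀_mem_fatouSet (connectedComponentIn_subset _ _ hx)

lemma image_iter_fatouComponent {z : ℂ} (hz : z ∈ fatouSet f₀) (k : ℕ) :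
    f₀^[k] '' fatouComponent f₀ z ⊆ fatouComponent f₀ (f₀^[k] z) := by
  induction k with
  | zero => simp
  | succ k ih =>
    rw [Function.iterate_succ', Set.image_comp]
    exact (Set.image_mono ih).trans (image_fatouComponent (f₀_iter_mem_fatouSet hz k))

lemma fatouComponent_eq {z w : ℂ} (h : w ∈ fatouComponent f₀ z) :
    fatouComponent f₀ z = fatouComponent f₀ w := connectedComponentIn_eq h

lemma fatouComponent_step {z w : ℂ} (hz : z ∈ fatouSet f₀) (hw : w ∈ fatouSet f₀)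
    (h : fatouComponent f₀ z = fatouComponent f₀ w) :
    fatouComponent f₀ (f₀ z) = fatouComponent f₀ (f₀ w) := by
  have h1 : w ∈ fatouComponent f₀ z := h ▸ mem_connectedComponentIn hw
  exact fatouComponent_eq (image_fatouComponent hz (Set.mem_image_of_mem _ h1))

/-- Wandering in terms of the orbit of components of one point. -/
theorem isWanderingDomain_iff {z : ℂ} (hz : z ∈ fatouSet f₀) :
    IsWanderingDomain f₀ (fatouComponent f₀ z) ↔
      Function.Injective fun k => fatouComponent f₀ (f₀^[k] z) := by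
  constructor
  · rintro ⟨-, V, hV, hinj⟩
    have : (fun k => fatouComponent f₀ (f₀^[k] z)) = V := by
      funext k
      obtain ⟨⟨y, hy, hVy⟩, hsub⟩ := hV k
      have h1 : f₀^[k] z ∈ V k := hsub (Set.mem_image_of_mem _ (mem_connectedComponentIn hz))
      rw [hVy] at h1 ⊢
      exact (connectedComponentIn_eq h1).symm
    rw [this]; exact hinj
  · intro h
    exact ⟨⟨z, hz, rfl⟩, _, fun k => ⟨⟨_, f₀_iter_mem_fatouSet hz k, rfl⟩,
      image_iter_fatouComponent hz k⟩, h⟩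

theorem isWanderingDomain_step {z : ℂ} (hz : z ∈ fatouSet f₀) :
    IsWanderingDomain f₀ (fatouComponent f₀ z) ↔
      IsWanderingDomain f₀ (fatouComponent f₀ (f₀ z)) := by
  rw [isWanderingDomain_iff hz, isWanderingDomain_iff (f₀_mem_fatouSet hz)]
  simp only [← Function.iterate_succ_apply]
  constructor
  · intro h i j hij
    have := @h (i + 1) (j + 1) hij
    omega
  · intro h i j hij
    apply h
    simp only [Nat.succ_eq_add_one]
    rw [Function.iterate_succ_apply', Function.iterate_succ_apply']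
    exact fatouComponent_step (f₀_iter_mem_fatouSet hz i) (f₀_iter_mem_fatouSet hz j) hij

theorem isWanderingDomain_iter {z : ℂ} (hz : z ∈ fatouSet f₀) (k : ℕ) :
    IsWanderingDomain f₀ (fatouComponent f₀ z) ↔
      IsWanderingDomain f₀ (fatouComponent f₀ (f₀^[k] z)) := by
  induction k with
  | zero => simp
  | succ k ih =>
    rw [ih, Function.iterate_succ_apply']
    exact isWanderingDomain_step (f₀_iter_mem_fatouSet hz k)

/-- The Fatou component of the integer `n` is a wandering domain. -/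
def IntWandering (n : ℤ) : Prop := IsWanderingDomain f₀ (fatouComponent f₀ n)

/-- Wandering depends only on the tail of the `3x+1` trajectory. -/
theorem intWandering_congr {m n : ℤ} {k l : ℕ} (h : T^[k] m = T^[l] n) :
    IntWandering m ↔ IntWandering n := by
  unfold IntWandering
  rw [isWanderingDomain_iter (intCast_mem_fatouSet m) k,
    isWanderingDomain_iter (intCast_mem_fatouSet n) l, f₀_iter_intCast, f₀_iter_intCast, h]

/-- A wandering integer has an injective trajectory. -/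
theorem IntWandering.injective {n : ℤ} (h : IntWandering n) :
    Function.Injective fun k => T^[k] n := by
  unfold IntWandering at h
  rw [isWanderingDomain_iff (intCast_mem_fatouSet n)] at h
  intro i j hij
  apply h
  simp only at hij ⊢
  rw [f₀_iter_intCast, f₀_iter_intCast, hij]

/-- If the trajectory of `n` reaches a periodic point, the component of `n` is not wandering. -/
theorem not_intWandering {n : ℤ} {i j : ℕ} (hij : i ≠ j) (h : T^[i] n = T^[j] n) :
    ¬ IntWandering n := fun hw => hij (hw.injective h)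

end Pool.Agent.Helper14
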