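import Pool.Agent.Helper14.TreeInt
import Pool.Agent.Collatz3.Rigid
import Pool.Agent.Collatz3.VMain

set_option autoImplicit false

/-!
From the uniform growth of the inverse `3x+1` tree to the number of integers of absolute value at
most `x` in backward orbits, and the consequences for the Fatou components of `f₀`.
-/

namespace Pool.Agent.Helper14

open Pool.Agent.Collatz3 Real

theorem uniform_two : UniformGrowth (2 * log 2) (log (4 / 3)) :=
  rigidity (by have := log_pos (by norm_num : (1 : ℝ) < 2); positivity)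
    (log_pos (by norm_num)) typical_two

/-- Every integer prime to 3 has at least `x ^ (1 - ε)` preimages up to `x` times its size. -/
theorem back_count (ε : ℝ) (hε : 0 < ε) : ∃ X₀ : ℝ, 1 ≤ X₀ ∧ ∀ a : ℤ, ¬ (3 : ℤ) ∣ a → ∀ x : ℝ, X₀ ≤ x →
    x ^ (1 - ε) ≤ ((Back a (x * |(a : ℝ)|)).ncard : ℝ) := by
  obtain ⟨g, hg⟩ : ∃ g, g = log (4 / 3) := ⟨_, rfl⟩
  have hg0 : 0 < g := by rw [hg]; exact log_pos (by norm_num)
  obtain ⟨e, he⟩ : ∃ e, e = min ε 1 := ⟨_, rfl⟩
  have he0 : 0 < e := by rw [he]; exact lt_min hε one_pos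
  have he1 : e ≤ 1 := by rw [he]; exact min_le_right _ _
  have heε : e ≤ ε := by rw [he]; exact min_le_left _ _
  obtain ⟨δ, hδ⟩ : ∃ δ, δ = g * e / 8 := ⟨_, rfl⟩
  have hδ0 : 0 < δ := by rw [hδ]; positivity
  obtain ⟨N₀, hN₀⟩ := uniform_two δ hδ0
  rw [← hg] at hN₀
  have hL0 : 0 ≤ max ((g + δ) * (N₀ + 1)) (4 * g / (3 * e)) :=
    le_trans (by positivity) (le_max_left _ _)
  refine ⟨Real.exp (max ((g + δ) * (N₀ + 1)) (4 * g / (3 * e))), Real.one_le_exp hL0,
    fun a ha x hx => ?_⟩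
  have ha0 : a ≠ 0 := by
    rintro rfl
    exact ha (dvd_zero _)
  have hx0 : 0 < x := lt_of_lt_of_le (Real.exp_pos _) hx
  obtain ⟨L, hL⟩ : ∃ L, L = log x := ⟨_, rfl⟩
  have hLm : max ((g + δ) * (N₀ + 1)) (4 * g / (3 * e)) ≤ L := by
    rw [hL, Real.le_log_iff_exp_le hx0]
    exact hx
  have h1 : (g + δ) * (N₀ + 1) ≤ L := (le_max_left _ _).trans hLm
  have h2 : 4 * g / (3 * e) ≤ L := (le_max_right _ _).trans hLm
  obtain ⟨n, hn⟩ : ∃ n, n = ⌊L / (g + δ)⌋₊ := ⟨_, rfl⟩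
  have hgd : 0 < g + δ := by positivity
  have hLg : (N₀ : ℝ) + 1 ≤ L / (g + δ) := by
    rw [le_div_iff₀ hgd]
    linarith
  have hLnn : 0 ≤ L / (g + δ) := by
    have : (0 : ℝ) ≤ N₀ := Nat.cast_nonneg _
    linarith
  have hnN : N₀ ≤ n := by
    rw [hn]
    apply Nat.le_floor
    linarith
  have hn1 : (n : ℝ) ≤ L / (g + δ) := by
    rw [hn]
    exact Nat.floor_le hLnn
  have hn1' : (g + δ) * n ≤ L := by
    have := mul_le_mul_of_nonneg_left hn1 hgd.le
    rwa [mul_div_cancel₀ _ hgd.ne'] at this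
  have hn2 : L / (g + δ) - 1 ≤ n := by
    have := Nat.lt_floor_add_one (L / (g + δ))
    rw [← hn] at this
    linarith
  have hs : 2 * log 2 = g + log 3 := by
    have h43 : log (4 / 3) = log 4 - log 3 := Real.log_div (by norm_num) (by norm_num)
    have h4 : log 4 = 2 * log 2 := by
      rw [show (4 : ℝ) = 2 ^ 2 by norm_num, Real.log_pow]
      norm_num
    rw [hg, h43, h4]
    ring
  have hB : Real.exp ((2 * log 2 + δ) * n) * |(a : ℝ)| ≤ 3 ^ n * (x * |(a : ℝ)|) := by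
    have e1 : (3 : ℝ) ^ n = Real.exp (n * log 3) := by
      rw [mul_comm, Real.exp_mul, Real.exp_log (by norm_num), Real.rpow_natCast]
    have e2 : x = Real.exp L := by rw [hL, Real.exp_log hx0]
    have e3 : Real.exp ((2 * log 2 + δ) * n) ≤ 3 ^ n * x := by
      rw [e1, e2, ← Real.exp_add]
      apply Real.exp_le_exp.2
      rw [hs]
      nlinarith
    calc Real.exp ((2 * log 2 + δ) * n) * |(a : ℝ)| ≤ 3 ^ n * x * |(a : ℝ)| :=
          mul_le_mul_of_nonneg_right e3 (abs_nonneg _)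
      _ = 3 ^ n * (x * |(a : ℝ)|) := by ring
  have hc := hN₀ n hnN a ha
  have hc2 : (cnt a n (Real.exp ((2 * log 2 + δ) * n)) : ℝ) ≤
      ((Back a (x * |(a : ℝ)|)).ncard : ℝ) := by exact_mod_cast cnt_le_back ha0 n hB
  refine le_trans ?_ (hc.trans hc2)
  rw [Real.rpow_def_of_pos hx0, ← hL]
  apply Real.exp_le_exp.2
  have hL1 : 0 < L := lt_of_lt_of_le (by positivity) h2
  have h3 : g ≤ 3 * e / 4 * L := by
    rw [div_le_iff₀ (by positivity)] at h2
    linarith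
  have h4 : (1 - e / 4) * (g + δ) ≤ g - δ := by
    have e1 : g - δ - (1 - e / 4) * (g + δ) = g * e ^ 2 / 32 := by
      rw [hδ]
      ring
    have e2 : 0 ≤ g * e ^ 2 / 32 := by positivity
    linarith
  have h5 : (1 - e / 4) * L ≤ (g - δ) * (L / (g + δ)) := by
    rw [mul_div_assoc', le_div_iff₀ hgd]
    nlinarith
  have h6 : 0 ≤ g - δ := by
    rw [hδ]
    nlinarith
  have h7 : (g - δ) * (L / (g + δ) - 1) ≤ (g - δ) * n := mul_le_mul_of_nonneg_left hn2 h6
  have h8 : L * (1 - ε) ≤ L * (1 - e) := mul_le_mul_of_nonneg_left (by linarith) hL1.le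
  nlinarith

/-- The forward orbit of a nonzero integer contains an integer prime to 3 of at most twice the
absolute value and the same sign. -/
theorem exists_prime_to_three {m : ℤ} (hm : m ≠ 0) : ∃ (k : ℕ) (a : ℤ), T^[k] m = a ∧
    ¬ (3 : ℤ) ∣ a ∧ |a| ≤ 2 * |m| ∧ 0 < a * m ∧ (¬ (3 : ℤ) ∣ m → k = 0) := by
  by_cases h3 : (3 : ℤ) ∣ m
  · -- reduce to the odd part
    obtain ⟨i, o, ho, rfl⟩ : ∃ (i : ℕ) (o : ℤ), o % 2 = 1 ∧ m = 2 ^ i * o := by
      have h : ∀ N : ℕ, ∀ m : ℤ, m ≠ 0 → m.natAbs ≤ N → ∃ (i : ℕ) (o : ℤ), o % 2 = 1 ∧ m = 2 ^ i * o := by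
        intro N
        induction N with
        | zero =>
          intro m hm h
          omega
        | succ N ih =>
          intro m hm h
          rcases Int.emod_two_eq_zero_or_one m with h0 | h0
          · obtain ⟨i, o, ho, he⟩ := ih (m / 2) (by omega) (by omega)
            refine ⟨i + 1, o, ho, ?_⟩
            have e : (2 : ℤ) ^ (i + 1) * o = 2 * (2 ^ i * o) := by ring
            rw [e, ← he]
            omega
          · exact ⟨0, m, h0, by simp⟩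
      exact h _ m hm le_rfl
    have h2i : (0 : ℤ) < 2 ^ i := by positivity
    have h2i' : (1 : ℤ) ≤ 2 ^ i := h2i
    have ho3 : (3 : ℤ) ∣ o := by
      rcases Int.Prime.dvd_mul' Nat.prime_three h3 with h | h
      · have := Int.Prime.dvd_pow' Nat.prime_three h
        norm_num at this
      · exact_mod_cast h
    have hTo : T o = (3 * o + 1) / 2 := by
      unfold T
      rw [if_neg (by omega)]
    refine ⟨i + 1, T o, ?_, ?_, ?_, ?_, fun h => absurd h3 h⟩
    · rw [Function.iterate_succ_apply', T_iter_pow]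
    · rw [hTo]
      omega
    · rw [hTo]
      have h4 : |2 ^ i * o| = 2 ^ i * |o| := by rw [abs_mul, abs_of_pos h2i]
      have h5 : |o| ≤ 2 ^ i * |o| := by
        calc |o| = 1 * |o| := (one_mul _).symm
          _ ≤ 2 ^ i * |o| := mul_le_mul_of_nonneg_right h2i' (abs_nonneg _)
      have h6 : |(3 * o + 1) / 2| ≤ 2 * |o| := by
        rcases abs_cases o with ⟨q1, q2⟩ | ⟨q1, q2⟩ <;>
        rcases abs_cases ((3 * o + 1) / 2) with ⟨q3, q4⟩ | ⟨q3, q4⟩ <;> rw [q1, q3] <;> omega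
      rw [h4]
      linarith
    · rw [hTo]
      rcases lt_trichotomy o 0 with h | h | h
      · exact mul_pos_of_neg_of_neg (by omega) (mul_neg_of_pos_of_neg h2i h)
      · omega
      · exact mul_pos (by omega) (mul_pos h2i h)
  · refine ⟨0, m, rfl, h3, ?_, ?_, fun _ => rfl⟩
    · have := abs_nonneg m
      linarith
    · exact mul_self_pos.2 hm

/-- The integers in the grand orbit of `m` (with the sign of `m`, up to `x`). -/
theorem grand_count (ε : ℝ) (hε : 0 < ε) : ∃ X₀ : ℝ, 1 ≤ X₀ ∧ ∀ m : ℤ, m ≠ 0 → ∀ x : ℝ, X₀ ≤ x →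
    x ^ (1 - ε) ≤ ({n : ℤ | 0 < n * m ∧ |(n : ℝ)| ≤ x * |(m : ℝ)| ∧
      ∃ j k : ℕ, T^[j] n = T^[k] m ∧ (¬ (3 : ℤ) ∣ m → k = 0)}.ncard : ℝ) := by
  obtain ⟨X₀, hX, h⟩ := back_count (ε / 2) (by positivity)
  obtain ⟨e, he⟩ : ∃ e, e = min ε 1 := ⟨_, rfl⟩
  have he0 : 0 < e := by rw [he]; exact lt_min hε one_pos
  have he1 : e ≤ 1 := by rw [he]; exact min_le_right _ _
  have heε : e ≤ ε := by rw [he]; exact min_le_left _ _
  refine ⟨max (2 * X₀) (Real.exp (2 * log 2 / ε)), le_max_of_le_left (by linarith),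
    fun m hm x hx => ?_⟩
  have hx1 : 2 * X₀ ≤ x := (le_max_left _ _).trans hx
  have hx2 : Real.exp (2 * log 2 / ε) ≤ x := (le_max_right _ _).trans hx
  have hx0 : 0 < x := by linarith
  obtain ⟨k, a, hk, ha3, ham, hsg, hk0⟩ := exists_prime_to_three hm
  have h1 := h a ha3 (x / 2) (by linarith)
  have ha0 : a ≠ 0 := by
    rintro rfl
    exact ha3 (dvd_zero _)
  have hsub : Back a (x / 2 * |(a : ℝ)|) ⊆ {n : ℤ | 0 < n * m ∧ |(n : ℝ)| ≤ x * |(m : ℝ)| ∧
      ∃ j k : ℕ, T^[j] n = T^[k] m ∧ (¬ (3 : ℤ) ∣ m → k = 0)} := by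
    rintro n ⟨hn1, hn2, j, hj⟩
    refine ⟨?_, ?_, j, k, by rw [hj, hk], hk0⟩
    · have h3 : 0 < (n * a) * (a * m) := mul_pos hn1 hsg
      have h4 : (n * a) * (a * m) = (n * m) * (a * a) := by ring
      rw [h4] at h3
      by_contra hcon
      have := mul_nonpos_of_nonpos_of_nonneg (not_lt.1 hcon) (mul_self_nonneg a)
      linarith
    · refine hn2.trans ?_
      have h5 : |(a : ℝ)| ≤ 2 * |(m : ℝ)| := by exact_mod_cast ham
      have h6 : x / 2 * |(a : ℝ)| ≤ x / 2 * (2 * |(m : ℝ)|) :=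
        mul_le_mul_of_nonneg_left h5 (by positivity)
      linarith
  have hfin : {n : ℤ | 0 < n * m ∧ |(n : ℝ)| ≤ x * |(m : ℝ)| ∧
      ∃ j k : ℕ, T^[j] n = T^[k] m ∧ (¬ (3 : ℤ) ∣ m → k = 0)}.Finite :=
    (abs_le_finite _).subset fun _ h => h.2.1
  have h2 : ((Back a (x / 2 * |(a : ℝ)|)).ncard : ℝ) ≤ ({n : ℤ | 0 < n * m ∧
      |(n : ℝ)| ≤ x * |(m : ℝ)| ∧ ∃ j k : ℕ, T^[j] n = T^[k] m ∧ (¬ (3 : ℤ) ∣ m → k = 0)}.ncard : ℝ) := by
    exact_mod_cast Set.ncard_le_ncard hsub hfin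
  refine le_trans ?_ (h1.trans h2)
  have hlx : 2 * log 2 / ε ≤ log x := by rwa [Real.le_log_iff_exp_le hx0]
  rw [div_le_iff₀ hε] at hlx
  have hl2 : 0 < log 2 := log_pos (by norm_num)
  rw [Real.rpow_def_of_pos hx0, Real.rpow_def_of_pos (by positivity),
    Real.log_div hx0.ne' (by norm_num)]
  apply Real.exp_le_exp.2
  have e1 : (log x - log 2) * (1 - ε / 2) = log x * (1 - ε) + (log x * ε / 2 - log 2) + log 2 * ε / 2 := by
    ring
  rw [e1]
  have e2 : 0 ≤ log 2 * ε / 2 := by positivity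
  linarith

end Pool.Agent.Helper14
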