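import Pool.Agent.Helper14.PMean

set_option autoImplicit false
set_option linter.unusedVariables false

namespace Pool.Agent.Helper14

open Filter Topology

/-! ### Population bound -/

lemma sum_range_mul_split (F : ℕ → ℝ) (A B : ℕ) :
    ∑ t ∈ Finset.range (A * B), F t =
      ∑ m ∈ Finset.range A, ∑ s ∈ Finset.range B, F (m + A * s) := by
  induction B with
  | zero => simp
  | succ B ih =>
    rw [Nat.mul_succ, Finset.sum_range_add, ih, ← Finset.sum_add_distrib]
    apply Finset.sum_congr rfl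
    intro m _
    rw [Finset.sum_range_succ, Nat.add_comm (A * B) m]

/-- The constant of the population bound. -/
noncomputable def Bc (p κ : ℕ) (c : ℕ → ℝ) (C : ℝ) : ℝ :=
  ∑ m ∈ Finset.range (3 ^ (κ + 1)), (c m / C)⁻¹ ^ p

lemma Bc_pos {p κ : ℕ} {E P O : ℝ} {c b : ℕ → ℝ} (hC : Cert p κ E P O c b) {C : ℝ} (hC0 : 0 < C) :
    0 < Bc p κ c C := by
  apply Finset.sum_pos
  · intro m hm
    have := hC.c_pos m (Finset.mem_range.1 hm)
    positivity
  · exact ⟨0, Finset.mem_range.2 (by positivity)⟩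

theorem population {p κ : ℕ} {E P O : ℝ} {c b : ℕ → ℝ} (hC : Cert p κ E P O c b)
    (hE : 0 < E) (hP : 0 < P) (hO : 0 < O) {C : ℝ} (hC0 : 0 < C)
    (hCmax : ∀ t, t < 3 ^ (κ + 1) → c t ≤ C) (X : ℝ) (f K j : ℕ) (ρ : ℝ) (hKj : K ≤ j)
    {y : ℝ} (hy : 0 < y) (S : Finset ℕ)
    (hS : ∀ t ∈ S, t < 3 ^ (κ + 1 + j) ∧ U E P O X 1 f K ρ t < y) :
    (S.card : ℝ) ≤ 3 ^ j * Bc p κ c C * y ^ p := by
  have hU : ∀ t, 0 < U E P O X 1 f K ρ t := U_pos hE hP hO one_pos f K ρ
  have h1 : ∑ t ∈ Finset.range (3 ^ (κ + 1 + j)), (U E P O X 1 f K ρ t)⁻¹ ^ p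
      ≤ 3 ^ j * Bc p κ c C := by
    rw [pow_add, sum_range_mul_split, Bc, Finset.mul_sum]
    apply Finset.sum_le_sum
    intro m hm
    exact pmean_U hC hE hP hO hC0 hCmax X f K j ρ m hKj (Finset.mem_range.1 hm)
  have h2 : ∑ t ∈ S, (y⁻¹) ^ p ≤ ∑ t ∈ S, (U E P O X 1 f K ρ t)⁻¹ ^ p := by
    apply Finset.sum_le_sum
    intro t ht
    have := hU t
    have := (hS t ht).2
    gcongr
  have h3 : ∑ t ∈ S, (U E P O X 1 f K ρ t)⁻¹ ^ p ≤
      ∑ t ∈ Finset.range (3 ^ (κ + 1 + j)), (U E P O X 1 f K ρ t)⁻¹ ^ p := by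
    apply Finset.sum_le_sum_of_subset_of_nonneg
    · intro t ht; exact Finset.mem_range.2 (hS t ht).1
    · intro t _ _
      have := hU t
      positivity
  have h4 : (S.card : ℝ) * (y⁻¹) ^ p ≤ 3 ^ j * Bc p κ c C := by
    rw [Finset.sum_const, nsmul_eq_mul] at h2
    exact h2.trans (h3.trans h1)
  have h5 : (S.card : ℝ) = (S.card : ℝ) * (y⁻¹) ^ p * y ^ p := by
    rw [mul_assoc, ← mul_pow, inv_mul_cancel₀ hy.ne', one_pow, mul_one]
  rw [h5]
  gcongr

/-! ### The effect of running out of fuel -/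

/-- Numerical bound for the difference of the two truncations. -/
noncomputable def dseq (E H : ℝ) : ℕ → ℕ → ℝ
  | 0, _ => 1
  | _ + 1, 0 => 0
  | f + 1, K + 1 => E * dseq E H f (K + 1) + H * dseq E H f K

lemma dseq_nonneg {E H : ℝ} (hE : 0 ≤ E) (hH : 0 ≤ H) : ∀ f K, 0 ≤ dseq E H f K := by
  intro f
  induction f with
  | zero => intro K; simp [dseq]
  | succ f ih =>
    intro K
    match K with
    | 0 => simp [dseq]
    | K + 1 =>
      simp only [dseq]
      have := ih K
      have := ih (K + 1)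
      positivity

lemma tendsto_of_contract {x e : ℕ → ℝ} {E : ℝ} (hE : 0 ≤ E) (hE1 : E < 1)
    (hx : ∀ n, 0 ≤ x n) (h : ∀ n, x (n + 1) ≤ E * x n + e n) (he : Tendsto e atTop (𝓝 0)) :
    Tendsto x atTop (𝓝 0) := by
  rw [Metric.tendsto_atTop]
  intro δ hδ
  have h1 : ∀ᶠ n in atTop, e n < δ / 4 * (1 - E) :=
    he.eventually_lt_const (by have : 0 < 1 - E := by linarith
                               positivity)
  obtain ⟨n0, hn0⟩ := eventually_atTop.1 h1
  have h2 : ∀ m, x (n0 + m) ≤ δ / 4 + E ^ m * x n0 := by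
    intro m
    induction m with
    | zero => simp; linarith
    | succ m ih =>
      have h3 := h (n0 + m)
      have h4 := hn0 (n0 + m) (by omega)
      rw [← add_assoc]
      calc x (n0 + m + 1) ≤ E * x (n0 + m) + e (n0 + m) := h3
        _ ≤ E * (δ / 4 + E ^ m * x n0) + δ / 4 * (1 - E) := by
            have := mul_le_mul_of_nonneg_left ih hE
            linarith
        _ = _ := by ring
  have h5 : Tendsto (fun m : ℕ => E ^ m * x n0) atTop (𝓝 0) := by
    have := (tendsto_pow_atTop_nhds_zero_of_lt_one hE hE1).mul_const (x n0)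
    simpa using this
  obtain ⟨m0, hm0⟩ := eventually_atTop.1 (h5.eventually_lt_const (show (0 : ℝ) < δ / 4 by positivity))
  refine ⟨n0 + m0, fun n hn => ?_⟩
  obtain ⟨m, rfl⟩ : ∃ m, n = n0 + m := ⟨n - n0, by omega⟩
  have := h2 m
  have := hm0 m (by omega)
  rw [Real.dist_eq, sub_zero, abs_of_nonneg (hx _)]
  linarith

lemma tendsto_dseq {E H : ℝ} (hE : 0 ≤ E) (hE1 : E < 1) (hH : 0 ≤ H) (K : ℕ) :
    Tendsto (fun f => dseq E H f K) atTop (𝓝 0) := by
  induction K with
  | zero =>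
    refine tendsto_const_nhds.congr' ?_
    filter_upwards [eventually_gt_atTop 0] with f hf
    obtain ⟨f', rfl⟩ : ∃ f', f = f' + 1 := ⟨f - 1, by omega⟩
    simp [dseq]
  | succ K ih =>
    apply tendsto_of_contract hE hE1 (fun n => dseq_nonneg hE hH n _)
      (e := fun f => H * dseq E H f K)
    · intro n
      simp only [dseq]
      exact le_refl _
    · simpa using ih.const_mul H

lemma U_diff {E P O H : ℝ} (hE : 0 ≤ E) (hP : 0 ≤ P) (hO : 0 ≤ O) (hPH : P ≤ H) (hOH : O ≤ H)
    (X : ℝ) (f : ℕ) : ∀ (K : ℕ) (ρ : ℝ) (t : ℕ), 0 < ρ → ρ * 4 ^ f < X →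
      U E P O X 1 f K ρ t ≤ U E P O X 0 f K ρ t + dseq E H f K := by
  have hH : 0 ≤ H := hP.trans hPH
  induction f with
  | zero => intro K ρ t _ _; simp [U, dseq]
  | succ f ih =>
    intro K ρ t hρ hX
    have h4 : (1 : ℝ) ≤ 4 ^ (f + 1) := one_le_pow₀ (by norm_num)
    have hXρ : ¬ X ≤ ρ := by
      have : ρ * 1 ≤ ρ * 4 ^ (f + 1) := mul_le_mul_of_nonneg_left h4 hρ.le
      linarith
    match K with
    | 0 => simp [U, dseq, if_neg hXρ]
    | K + 1 =>
      simp only [U, dseq, if_neg hXρ]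
      rw [pow_succ] at hX
      have hp4 : (0 : ℝ) < 4 ^ f := by positivity
      have i1 := ih (K + 1) (4 * ρ) (4 * t + 2) (by positivity) (by linarith)
      have i2 := ih K (4 * ρ / 3) (4 * (t / 3)) (by positivity) (by nlinarith)
      have i3 := ih K (2 * ρ / 3) (2 * (t / 3) + 1) (by positivity) (by nlinarith)
      have hd := dseq_nonneg hE hH f K
      have j1 := mul_le_mul_of_nonneg_left i1 hE
      have j2 := mul_le_mul_of_nonneg_left i2 hP
      have j3 := mul_le_mul_of_nonneg_left i3 hO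
      have k2 : P * dseq E H f K ≤ H * dseq E H f K := by gcongr
      have k3 : O * dseq E H f K ≤ H * dseq E H f K := by gcongr
      have k0 : 0 ≤ H * dseq E H f K := by positivity
      split_ifs <;> linarith

/-! ### The block lemma -/

theorem block {r : ℕ} {ψ : ℕ → ℝ} (hψ : SuperAdd r ψ) {σ E P O G X v : ℝ}
    (hE0 : 0 ≤ E) (hP0 : 0 ≤ P) (hO0 : 0 ≤ O)
    (hE : E ≤ 4 ^ (-σ)) (hP : P * G ≤ (3 / 4) ^ σ) (hO : O * G ≤ (3 / 2) ^ σ)
    (kp : ℕ → ℝ) (hkp0 : ∀ K, 0 ≤ kp K) (hkp : ∀ K, kp (K + 1) ≤ G * kp K)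
    (hX : 0 < X) (hv : 0 ≤ v)
    (D : ℕ → ℕ → Prop) (hDN : ∀ K t, D K t → Nice r (3 * t + 2))
    (hDE : ∀ K t, D (K + 1) t → D (K + 1) (4 * t + 2))
    (hDP : ∀ K q, D (K + 1) (3 * q) → D K (4 * q))
    (hDO : ∀ K q, D (K + 1) (3 * q + 2) → D K (2 * q + 1))
    (hcut : ∀ K ρ t, D K t → (3 * t + 2 : ℝ) ≤ ρ → X ≤ ρ → ρ ≤ 4 * X →
      kp K * ρ ^ (-σ) * v ≤ ψ t)
    (hexh : ∀ ρ t, D 0 t → (3 * t + 2 : ℝ) ≤ ρ → ρ < X → kp 0 * ρ ^ (-σ) ≤ ψ t) (f : ℕ) :
    ∀ (K : ℕ) (ρ : ℝ) (t : ℕ), D K t → (3 * t + 2 : ℝ) ≤ ρ → ρ ≤ 4 * X →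
      (v = 0 ∨ X * 3 ^ K ≤ ρ * 2 ^ f) → kp K * ρ ^ (-σ) * U E P O X v f K ρ t ≤ ψ t := by
  induction f with
  | zero =>
    intro K ρ t hD ht hρ hf
    simp only [U]
    rcases hf with hf | hf
    · rw [hf, mul_zero]; exact hψ.nonneg t
    · have h3 : (1 : ℝ) ≤ 3 ^ K := one_le_pow₀ (by norm_num)
      have : X ≤ ρ := by
        rw [pow_zero, mul_one] at hf
        nlinarith
      exact hcut K ρ t hD ht this hρ
  | succ f ih =>
    intro K ρ t hD ht hρ hf
    by_cases hXρ : X ≤ ρ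
    · have : U E P O X v (f + 1) K ρ t = v := by
        match K with
        | 0 => simp only [U, if_pos hXρ]
        | K + 1 => simp only [U, if_pos hXρ]
      rw [this]
      exact hcut K ρ t hD ht hXρ hρ
    have hXρ' : ρ < X := not_le.1 hXρ
    have hρ0 : 0 < ρ := lt_of_lt_of_le (by positivity) ht
    match K, hD, hf with
    | 0, hD, hf =>
      simp only [U, if_neg hXρ, mul_one]
      exact hexh ρ t hD ht hXρ'
    | K + 1, hD, hf =>
      simp only [U, if_neg hXρ]
      have hfE : v = 0 ∨ X * 3 ^ (K + 1) ≤ (4 * ρ) * 2 ^ f := by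
        refine hf.imp_right fun h => ?_
        rw [pow_succ 2 f] at h
        have : 0 < ρ * 2 ^ f := by positivity
        linarith
      have hfP : v = 0 ∨ X * 3 ^ K ≤ (4 * ρ / 3) * 2 ^ f := by
        refine hf.imp_right fun h => ?_
        rw [pow_succ 2 f, pow_succ 3 K] at h
        have : 0 < ρ * 2 ^ f := by positivity
        linarith
      have hfO : v = 0 ∨ X * 3 ^ K ≤ (2 * ρ / 3) * 2 ^ f := by
        refine hf.imp_right fun h => ?_
        rw [pow_succ 2 f, pow_succ 3 K] at h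
        linarith
      have hk1 := hkp0 (K + 1)
      have hk := hkp0 K
      have hkk := hkp K
      have hρσ : 0 ≤ ρ ^ (-σ) := Real.rpow_nonneg hρ0.le _
      -- even child
      have eE : kp (K + 1) * ρ ^ (-σ) * (E * U E P O X v f (K + 1) (4 * ρ) (4 * t + 2))
          ≤ ψ (4 * t + 2) := by
        have hUn : 0 ≤ U E P O X v f (K + 1) (4 * ρ) (4 * t + 2) ∨ True := Or.inr trivial
        have h1 := ih (K + 1) (4 * ρ) (4 * t + 2) (hDE K t hD) (by push_cast; linarith)
          (by linarith) hfE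
        refine le_trans ?_ h1
        rw [Real.mul_rpow (by norm_num) hρ0.le]
        have hU0 : 0 ≤ U E P O X v f (K + 1) (4 * ρ) (4 * t + 2) := by
          have : ∀ (f K : ℕ) (ρ : ℝ) (t : ℕ), 0 ≤ U E P O X v f K ρ t := by
            intro f
            induction f with
            | zero => intro K ρ t; simpa only [U] using hv
            | succ f ih =>
              intro K ρ t
              match K with
              | 0 => simp only [U]; split_ifs; exacts [hv, zero_le_one]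
              | K + 1 =>
                simp only [U]
                have h1 := ih (K + 1) (4 * ρ) (4 * t + 2)
                have h2 := ih K (4 * ρ / 3) (4 * (t / 3))
                have h3 := ih K (2 * ρ / 3) (2 * (t / 3) + 1)
                split_ifs
                · exact hv
                all_goals positivity
          exact this _ _ _ _
        calc kp (K + 1) * ρ ^ (-σ) * (E * U E P O X v f (K + 1) (4 * ρ) (4 * t + 2))
            = E * (kp (K + 1) * ρ ^ (-σ) * U E P O X v f (K + 1) (4 * ρ) (4 * t + 2)) := by ring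
          _ ≤ 4 ^ (-σ) * (kp (K + 1) * ρ ^ (-σ) * U E P O X v f (K + 1) (4 * ρ) (4 * t + 2)) := by
              gcongr
          _ = _ := by ring
      have hUnn : ∀ (f K : ℕ) (ρ : ℝ) (t : ℕ), 0 ≤ U E P O X v f K ρ t := by
        intro f
        induction f with
        | zero => intro K ρ t; simpa only [U] using hv
        | succ f ih =>
          intro K ρ t
          match K with
          | 0 => simp only [U]; split_ifs; exacts [hv, zero_le_one]
          | K + 1 =>
            simp only [U]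
            have h1 := ih (K + 1) (4 * ρ) (4 * t + 2)
            have h2 := ih K (4 * ρ / 3) (4 * (t / 3))
            have h3 := ih K (2 * ρ / 3) (2 * (t / 3) + 1)
            split_ifs
            · exact hv
            all_goals positivity
      -- odd children, generic
      have eodd : ∀ (w a : ℝ) (t' : ℕ), 0 ≤ w → 0 < a → w * G ≤ a ^ (-σ) →
          kp K * (a * ρ) ^ (-σ) * U E P O X v f K (a * ρ) t' ≤ ψ t' →
          kp (K + 1) * ρ ^ (-σ) * (w * U E P O X v f K (a * ρ) t') ≤ ψ t' := by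
        intro w a t' hw ha hwG h1
        refine le_trans ?_ h1
        rw [Real.mul_rpow ha.le hρ0.le]
        have hU0 := hUnn f K (a * ρ) t'
        calc kp (K + 1) * ρ ^ (-σ) * (w * U E P O X v f K (a * ρ) t')
            ≤ (G * kp K) * ρ ^ (-σ) * (w * U E P O X v f K (a * ρ) t') := by gcongr
          _ = (w * G) * (kp K * ρ ^ (-σ) * U E P O X v f K (a * ρ) t') := by ring
          _ ≤ a ^ (-σ) * (kp K * ρ ^ (-σ) * U E P O X v f K (a * ρ) t') := by gcongr
          _ = _ := by ring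
      have hinvP : ((3 : ℝ) / 4) ^ σ = (4 / 3) ^ (-σ) := by
        rw [Real.rpow_neg (by norm_num), ← Real.inv_rpow (by norm_num)]; norm_num
      have hinvO : ((3 : ℝ) / 2) ^ σ = (2 / 3) ^ (-σ) := by
        rw [Real.rpow_neg (by norm_num), ← Real.inv_rpow (by norm_num)]; norm_num
      have hN := hDN _ _ hD
      obtain ⟨q, hq | hq | hq⟩ : ∃ q, t = 3 * q ∨ t = 3 * q + 1 ∨ t = 3 * q + 2 :=
        ⟨t / 3, by omega⟩
      · subst hq
        have m0 : 3 * q % 3 = 0 := by omega
        have d0 : 3 * q / 3 = q := by omega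
        simp only [m0, if_true, d0]
        have hsup := hψ.h0 q hN
        have hρ' : (4 * ρ / 3 : ℝ) = 4 / 3 * ρ := by ring
        have h2 := ih K (4 * ρ / 3) (4 * q) (hDP K q hD) (by push_cast at ht ⊢; linarith)
          (by linarith) hfP
        rw [hρ'] at h2 ⊢
        have h3 := eodd P (4 / 3) (4 * q) hP0 (by norm_num) (hinvP ▸ hP) h2
        calc _ = kp (K + 1) * ρ ^ (-σ) * (E * U E P O X v f (K + 1) (4 * ρ) (4 * (3 * q) + 2))
              + kp (K + 1) * ρ ^ (-σ) * (P * U E P O X v f K (4 / 3 * ρ) (4 * q)) := by ring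
          _ ≤ ψ (4 * (3 * q) + 2) + ψ (4 * q) := add_le_add eE h3
          _ ≤ _ := hsup
      · subst hq
        have m0 : (3 * q + 1) % 3 = 1 := by omega
        simp only [m0, one_ne_zero, if_false, OfNat.one_ne_ofNat, add_zero]
        exact eE.trans (hψ.h1 q hN)
      · subst hq
        have m0 : (3 * q + 2) % 3 = 2 := by omega
        have d0 : (3 * q + 2) / 3 = q := by omega
        simp only [m0, d0, OfNat.ofNat_ne_zero, if_false, if_true]
        have hsup := hψ.h2 q hN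
        have hρ' : (2 * ρ / 3 : ℝ) = 2 / 3 * ρ := by ring
        have h2 := ih K (2 * ρ / 3) (2 * q + 1) (hDO K q hD) (by push_cast at ht ⊢; linarith)
          (by linarith) hfO
        rw [hρ'] at h2 ⊢
        have h3 := eodd O (2 / 3) (2 * q + 1) hO0 (by norm_num) (hinvO ▸ hO) h2
        calc _ = kp (K + 1) * ρ ^ (-σ) *
                (E * U E P O X v f (K + 1) (4 * ρ) (4 * (3 * q + 2) + 2))
              + kp (K + 1) * ρ ^ (-σ) * (O * U E P O X v f K (2 / 3 * ρ) (2 * q + 1)) := by ring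
          _ ≤ ψ (4 * (3 * q + 2) + 2) + ψ (2 * q + 1) := add_le_add eE h3
          _ ≤ _ := hsup

end Pool.Agent.Helper14
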