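import Pool.Agent.Helper14.Block

set_option autoImplicit false
set_option linter.unusedVariables false

namespace Pool.Agent.Helper14

open Filter Topology

/-- A certificate at the exponent `σ`. -/
structure RCert (p κ : ℕ) (σ ε E P O : ℝ) (c b : ℕ → ℝ) : Prop where
  cert : Cert p κ E P O c b
  E0 : 0 < E
  E1 : E < 1
  P0 : 0 < P
  O0 : 0 < O
  hE : E ≤ 4 ^ (-σ)
  hP : P * 3 ^ ((1 - σ) / p + ε) ≤ (3 / 4) ^ σ
  hO : O * 3 ^ ((1 - σ) / p + ε) ≤ (3 / 2) ^ σ

lemma exists_max (κ : ℕ) (c : ℕ → ℝ) : ∃ C : ℝ, 0 < C ∧ ∀ t, t < 3 ^ (κ + 1) → c t ≤ C := by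
  refine ⟨∑ t ∈ Finset.range (3 ^ (κ + 1)), |c t| + 1, ?_, ?_⟩
  · have : 0 ≤ ∑ t ∈ Finset.range (3 ^ (κ + 1)), |c t| := Finset.sum_nonneg fun _ _ => abs_nonneg _
    linarith
  · intro t ht
    have h1 : |c t| ≤ ∑ t ∈ Finset.range (3 ^ (κ + 1)), |c t| :=
      Finset.single_le_sum (f := fun t => |c t|) (fun _ _ => abs_nonneg _) (Finset.mem_range.2 ht)
    have := le_abs_self (c t)
    linarith

lemma card_le_of_div_lt {r : ℕ} {S : Finset ℕ} (hS : ∀ a ∈ S, Nice r a) {B : ℕ}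
    (hB : ∀ a ∈ S, a / 3 < B) : S.card ≤ B := by
  have h1 : Set.InjOn (fun a => a / 3) (S : Set ℕ) := by
    intro a ha b hb hab
    have h1 := (hS a ha).mod
    have h2 := (hS b hb).mod
    simp only at hab
    omega
  have h2 : (S.image (fun a => a / 3)).card = S.card := Finset.card_image_of_injOn h1
  rw [← h2, ← Finset.card_range B]
  apply Finset.card_le_card
  intro x hx
  obtain ⟨a, ha, rfl⟩ := Finset.mem_image.1 hx
  exact Finset.mem_range.2 (hB a ha)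

lemma log_bounds {t N : ℕ} (hN : 1 ≤ N) (h : Nat.log 3 t = N) : 3 ^ N ≤ t ∧ t < 3 ^ (N + 1) := by
  have ht : t ≠ 0 := by
    rintro rfl
    simp at h
    omega
  constructor
  · rw [← h]; exact Nat.pow_log_le_self 3 ht
  · rw [← h]; exact Nat.lt_pow_succ_log_self (by norm_num) t

/-- First counting step: the weight of a dyadic slice. -/
lemma slice_bound {r p κ : ℕ} {σ ε E P O : ℝ} {c b : ℕ → ℝ} (h : RCert p κ σ ε E P O c b)
    (hp : 0 < p) (hσ : 0 ≤ σ) {M : ℝ} (hM : ∀ A : Finset ℕ, AC r A → ∑ a ∈ A, (a : ℝ) ^ (-σ) ≤ M)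
    {C : ℝ} (hC0 : 0 < C) (hCmax : ∀ t, t < 3 ^ (κ + 1) → c t ≤ C)
    {A : Finset ℕ} (hA : AC r A) (K : ℕ)
    (hAN : ∀ a ∈ A, a / 3 < 3 ^ (κ + 1 + (K + 1))) {y : ℝ} (hy : 0 < y)
    (hcard : 2 * (3 ^ (K + 1) * Bc p κ c C * y ^ p) ≤ A.card) :
    (A.card : ℝ) / 4 * ((3 : ℝ) ^ ((1 - σ) / p + ε)) ^ K * ((3 : ℝ) ^ (κ + 1 + K + 2)) ^ (-σ) * y
      ≤ M := by
  classical
  set G : ℝ := (3 : ℝ) ^ ((1 - σ) / p + ε) with hG
  have hG0 : 0 < G := by positivity
  set ρ : ℝ := (3 : ℝ) ^ (κ + 1 + K + 2) with hρ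
  have hρ0 : 0 < ρ := by positivity
  set H := max P O with hH
  have hH0 : 0 ≤ H := h.P0.le.trans (le_max_left _ _)
  obtain ⟨f, hf⟩ := ((tendsto_dseq h.E0.le h.E1 hH0 K).eventually_lt_const
    (show (0 : ℝ) < y / 2 by positivity)).exists
  set X : ℝ := ρ * 4 ^ f + 1 with hX
  have hXρ : ρ * 4 ^ f < X := by rw [hX]; linarith
  have hX0 : 0 < X := by positivity
  have h4f : (1 : ℝ) ≤ 4 ^ f := one_le_pow₀ (by norm_num)
  have hρX : ρ ≤ 4 * X := by nlinarith
  have hψ := superAdd_supW hM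
  -- the block lemma
  have hblock : ∀ a ∈ A, G ^ K * ρ ^ (-σ) * U E P O X 0 f K ρ (a / 3) ≤ supW r σ a := by
    intro a ha
    have hna := hA.nice a ha
    have ha3 : 3 * (a / 3) + 2 = a := by have := hna.mod; omega
    have h1 := block hψ (σ := σ) (G := G) (X := X) (v := 0) h.E0.le h.P0.le h.O0.le h.hE h.hP h.hO
      (fun K => G ^ K) (fun K => by positivity) (fun K => by rw [pow_succ']) hX0 le_rfl
      (fun _ t => Nice r (3 * t + 2)) (fun _ _ h => h)
      (fun _ t h => h.of_reach (reach_E t) (by omega))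
      (fun _ q h => h.of_reach (reach_P q) (by omega))
      (fun _ q h => h.of_reach (reach_O q) (by omega))
      (fun K ρ t _ _ _ _ => by rw [mul_zero]; exact supW_nonneg hM _)
      (fun ρ' t hD ht _ => by
        rw [pow_zero, one_mul]
        have h2 := le_supW hM hD
        refine le_trans ?_ h2
        have h3 : (0 : ℝ) < ((3 * t + 2 : ℕ) : ℝ) := by positivity
        exact Real.rpow_le_rpow_of_nonpos h3 (by push_cast; exact ht) (by linarith))
      f K ρ (a / 3) (by show Nice r (3 * (a / 3) + 2); rwa [ha3]) (by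
        have h5 : 3 * (a / 3) + 2 ≤ 3 ^ (κ + 1 + K + 2) := by
          have := hAN a ha
          have e : 3 ^ (κ + 1 + K + 2) = 3 * 3 ^ (κ + 1 + (K + 1)) := by
            rw [← pow_succ']; congr 1
          omega
        have h6 : ((3 * (a / 3) + 2 : ℕ) : ℝ) ≤ ((3 ^ (κ + 1 + K + 2) : ℕ) : ℝ) := by
          exact_mod_cast h5
        rw [hρ]; push_cast at h6 ⊢; exact h6) hρX (Or.inl rfl)
    simp only [ha3] at h1
    exact h1
  -- many elements have large value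
  set S := A.filter (fun a => U E P O X 1 f K ρ (a / 3) < y) with hS
  have hScard : (S.card : ℝ) ≤ 3 ^ (K + 1) * Bc p κ c C * y ^ p := by
    have hinj : Set.InjOn (fun a => a / 3) (S : Set ℕ) := by
      intro a ha b hb hab
      have h1 := (hA.nice a (Finset.mem_filter.1 ha).1).mod
      have h2 := (hA.nice b (Finset.mem_filter.1 hb).1).mod
      simp only at hab
      omega
    rw [← Finset.card_image_of_injOn hinj]
    apply population h.cert h.E0 h.P0 h.O0 hC0 hCmax X f K (K + 1) ρ (by omega) hy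
    intro t ht
    obtain ⟨a, ha, rfl⟩ := Finset.mem_image.1 ht
    rw [hS, Finset.mem_filter] at ha
    exact ⟨hAN a ha.1, ha.2⟩
  have hgood : (A.card : ℝ) / 2 ≤ ((A \ S).card : ℝ) := by
    have h1 : (A \ S).card + S.card = A.card :=
      Finset.card_sdiff_add_card_eq_card (Finset.filter_subset _ _)
    have h2 : ((A \ S).card : ℝ) + (S.card : ℝ) = A.card := by exact_mod_cast h1
    linarith
  have hsum : ∑ a ∈ A \ S, G ^ K * ρ ^ (-σ) * (y / 2) ≤ M := by
    refine le_trans ?_ (sum_supW_le hM hA)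
    refine le_trans ?_ (Finset.sum_le_sum_of_subset_of_nonneg (Finset.sdiff_subset (t := S))
      (fun a _ _ => supW_nonneg hM a))
    apply Finset.sum_le_sum
    intro a ha
    rw [Finset.mem_sdiff] at ha
    refine le_trans ?_ (hblock a ha.1)
    have h1 : y ≤ U E P O X 1 f K ρ (a / 3) := by
      by_contra hcon
      exact ha.2 (Finset.mem_filter.2 ⟨ha.1, not_le.1 hcon⟩)
    have h2 := U_diff h.E0.le h.P0.le h.O0.le (le_max_left P O) (le_max_right P O) X f K ρ (a / 3)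
      hρ0 hXρ
    have h3 : y / 2 ≤ U E P O X 0 f K ρ (a / 3) := by linarith
    have h4 : 0 ≤ G ^ K * ρ ^ (-σ) := by positivity
    exact mul_le_mul_of_nonneg_left h3 h4
  rw [Finset.sum_const, nsmul_eq_mul] at hsum
  have h4 : 0 ≤ G ^ K * ρ ^ (-σ) * (y / 2) := by positivity
  calc (A.card : ℝ) / 4 * G ^ K * ρ ^ (-σ) * y = (A.card : ℝ) / 2 * (G ^ K * ρ ^ (-σ) * (y / 2)) := by
        ring
    _ ≤ ((A \ S).card : ℝ) * (G ^ K * ρ ^ (-σ) * (y / 2)) := by gcongr
    _ ≤ M := hsum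

/-- Second counting step: the number of elements of an antichain in a triadic slice. -/
lemma slice_card {r p κ : ℕ} {σ ε E P O : ℝ} {c b : ℕ → ℝ} (h : RCert p κ σ ε E P O c b)
    (hp : 0 < p) (hσ : 0 ≤ σ) (hF : FinW r σ) :
    ∃ C2 : ℝ, 0 ≤ C2 ∧ ∀ A : Finset ℕ, AC r A → ∀ K : ℕ,
      (∀ a ∈ A, a / 3 < 3 ^ (κ + 1 + (K + 1))) →
        (A.card : ℝ) ≤ C2 * ((3 : ℝ) ^ (σ - ε * p / (p + 1))) ^ K := by
  obtain ⟨M', hM'⟩ := hF
  set M := max M' 1 with hMdef
  have hM : ∀ A : Finset ℕ, AC r A → ∑ a ∈ A, (a : ℝ) ^ (-σ) ≤ M := fun A hA =>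
    (hM' A hA).trans (le_max_left _ _)
  have hM0 : 0 < M := lt_of_lt_of_le one_pos (le_max_right _ _)
  obtain ⟨C, hC0, hCmax⟩ := exists_max κ c
  have hB : 0 < Bc p κ c C := Bc_pos h.cert hC0
  set B := Bc p κ c C with hBdef
  have hp' : (0 : ℝ) < p := by exact_mod_cast hp
  set C3 : ℝ := (4 * M) ^ p * (2 * B) * 3 ^ (1 + (κ + 3) * σ * p) with hC3
  have hC30 : 0 < C3 := by positivity
  refine ⟨C3 ^ ((1 : ℝ) / (p + 1)), by positivity, ?_⟩
  intro A hA K hAN
  rcases Nat.eq_zero_or_pos A.card with h0 | h0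
  · rw [h0]; push_cast; positivity
  have hn : (0 : ℝ) < A.card := by exact_mod_cast h0
  set n : ℝ := (A.card : ℝ) with hndef
  set y : ℝ := (n / (2 * (3 ^ (K + 1) * B))) ^ ((1 : ℝ) / p) with hy
  have hy0 : 0 < y := by positivity
  have hyp : y ^ p = n / (2 * (3 ^ (K + 1) * B)) := by
    rw [hy, one_div, Real.rpow_inv_natCast_pow (by positivity) hp.ne']
  have hsl := slice_bound h hp hσ hM hC0 hCmax hA K hAN hy0 (by
    rw [hyp]
    have : 2 * (3 ^ (K + 1) * Bc p κ c C * (n / (2 * (3 ^ (K + 1) * B)))) = n := by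
      rw [← hBdef]; field_simp
    rw [this])
  rw [← hndef] at hsl
  -- raise to the power p
  have h1 : (n / 4 * ((3 : ℝ) ^ ((1 - σ) / p + ε)) ^ K * ((3 : ℝ) ^ (κ + 1 + K + 2)) ^ (-σ) * y) ^ p
      ≤ M ^ p := by
    gcongr
  rw [mul_pow, hyp, mul_pow, mul_pow, div_pow] at h1
  have e1 : (((3 : ℝ) ^ ((1 - σ) / p + ε)) ^ K) ^ p = 3 ^ ((1 - σ + ε * p) * K) := by
    rw [← pow_mul, ← Real.rpow_natCast, ← Real.rpow_mul (by norm_num)]
    congr 1
    push_cast
    field_simp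
  have e2 : (((3 : ℝ) ^ (κ + 1 + K + 2)) ^ (-σ)) ^ p = 3 ^ (-((κ + K + 3) * σ * p)) := by
    rw [← Real.rpow_natCast (3 : ℝ) (κ + 1 + K + 2), ← Real.rpow_mul (by norm_num),
      ← Real.rpow_natCast _ p, ← Real.rpow_mul (by norm_num)]
    congr 1
    push_cast
    ring
  rw [e1, e2] at h1
  have e3 : ((3 : ℝ) ^ (K + 1) : ℝ) = 3 ^ ((K : ℝ) + 1) := by
    rw [← Real.rpow_natCast]; push_cast; rfl
  rw [e3] at h1
  -- conclude
  have h2 : n ^ (p + 1) ≤ (C3 ^ ((1 : ℝ) / (p + 1)) * ((3 : ℝ) ^ (σ - ε * p / (p + 1))) ^ K) ^ (p + 1) := by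
    have e4 : (C3 ^ ((1 : ℝ) / (p + 1)) * ((3 : ℝ) ^ (σ - ε * p / (p + 1))) ^ K) ^ (p + 1)
        = C3 * 3 ^ (K * (σ * (p + 1) - ε * p)) := by
      rw [mul_pow]
      congr 1
      · have := Real.rpow_inv_natCast_pow hC30.le (n := p + 1) (by omega)
        rw [one_div]
        push_cast at this
        exact this
      · rw [← pow_mul, ← Real.rpow_natCast, ← Real.rpow_mul (by norm_num)]
        congr 1
        push_cast
        field_simp
    rw [e4, hC3]
    have h3 : (4 : ℝ) ^ p * M ^ p * (2 * (3 ^ ((K : ℝ) + 1) * B)) *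
        (3 ^ ((1 - σ + ε * p) * K))⁻¹ * (3 ^ (-((κ + K + 3) * σ * p)))⁻¹
        = (4 * M) ^ p * (2 * B) * 3 ^ (1 + (κ + 3) * σ * p) * 3 ^ (K * (σ * (p + 1) - ε * p)) := by
      rw [mul_pow, ← Real.rpow_neg (by norm_num : (0 : ℝ) ≤ 3),
        ← Real.rpow_neg (by norm_num : (0 : ℝ) ≤ 3)]
      have e5 : (3 : ℝ) ^ (1 + (κ + 3) * σ * p) * 3 ^ (K * (σ * (p + 1) - ε * p)) =
          3 ^ ((K : ℝ) + 1) * 3 ^ (-((1 - σ + ε * p) * K)) * 3 ^ (- -((κ + K + 3) * σ * p)) := by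
        rw [← Real.rpow_add (by norm_num), ← Real.rpow_add (by norm_num),
          ← Real.rpow_add (by norm_num)]
        congr 1
        ring
      calc _ = 4 ^ p * M ^ p * (2 * B) * (3 ^ ((K : ℝ) + 1) * 3 ^ (-((1 - σ + ε * p) * K)) *
            3 ^ (- -((κ + K + 3) * σ * p))) := by ring
        _ = _ := by rw [← e5]; ring
    rw [← h3]
    have h4 : n ^ (p + 1) = (4 : ℝ) ^ p * (2 * (3 ^ ((K : ℝ) + 1) * B)) *
        (3 ^ ((1 - σ + ε * p) * K))⁻¹ * (3 ^ (-((κ + K + 3) * σ * p)))⁻¹ *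
        (n ^ p / 4 ^ p * 3 ^ ((1 - σ + ε * p) * K) * 3 ^ (-((κ + K + 3) * σ * p)) *
          (n / (2 * (3 ^ ((K : ℝ) + 1) * B)))) := by
      have a1 : (3 : ℝ) ^ ((1 - σ + ε * p) * K) ≠ 0 := by positivity
      have a2 : (3 : ℝ) ^ (-((κ + K + 3) * σ * p)) ≠ 0 := by positivity
      have a3 : (3 : ℝ) ^ ((K : ℝ) + 1) ≠ 0 := by positivity
      field_simp
      ring
    rw [h4]
    calc _ ≤ (4 : ℝ) ^ p * (2 * (3 ^ ((K : ℝ) + 1) * B)) *
        (3 ^ ((1 - σ + ε * p) * K))⁻¹ * (3 ^ (-((κ + K + 3) * σ * p)))⁻¹ * M ^ p := by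
          gcongr
      _ = _ := by ring
  exact le_of_pow_le_pow_left₀ (by omega) (by positivity) h2

lemma geom_le {x : ℝ} (hx : 0 ≤ x) (hx1 : x < 1) (L : ℕ) :
    ∑ K ∈ Finset.range L, x ^ K ≤ (1 - x)⁻¹ := by
  rw [← tsum_geometric_of_lt_one hx hx1]
  exact (summable_geometric_of_lt_one hx hx1).sum_le_tsum _ (fun _ _ => by positivity)

/-- One step of the descent. -/
theorem finW_step {r p κ : ℕ} {σ ε E P O : ℝ} {c b : ℕ → ℝ} (h : RCert p κ σ ε E P O c b)
    (hp : 0 < p) (hσ : 0 ≤ σ) (hF : FinW r σ) {σ' : ℝ} (hσ' : 0 ≤ σ')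
    (hlt : σ - ε * p / (p + 1) < σ') : FinW r σ' := by
  classical
  obtain ⟨C2, hC2, hcard⟩ := slice_card h hp hσ hF
  set x : ℝ := 3 ^ (σ - ε * p / (p + 1) - σ') with hx
  have hx0 : 0 < x := by positivity
  have hx1 : x < 1 := Real.rpow_lt_one_of_one_lt_of_neg (by norm_num) (by linarith)
  refine ⟨(κ + 1) * 3 ^ (κ + 1) + C2 * (1 - x)⁻¹, ?_⟩
  intro A hA
  -- slices
  set L := A.sup (fun a => Nat.log 3 (a / 3)) + 1 with hL
  have hmaps : ∀ a ∈ A, Nat.log 3 (a / 3) ∈ Finset.range (κ + 1 + L) := by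
    intro a ha
    rw [Finset.mem_range]
    have : Nat.log 3 (a / 3) ≤ A.sup (fun a => Nat.log 3 (a / 3)) :=
      Finset.le_sup (f := fun a => Nat.log 3 (a / 3)) ha
    omega
  rw [← Finset.sum_fiberwise_of_maps_to hmaps]
  rw [Finset.sum_range_add]
  have hle1 : ∀ a ∈ A, (a : ℝ) ^ (-σ') ≤ 1 := by
    intro a ha
    have : (1 : ℝ) ≤ a := by
      have := (hA.nice a ha).pos
      exact_mod_cast (by omega : 1 ≤ a)
    exact Real.rpow_le_one_of_one_le_of_nonpos this (by linarith)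
  apply add_le_add
  · have : ∀ N ∈ Finset.range (κ + 1),
        ∑ a ∈ A with Nat.log 3 (a / 3) = N, (a : ℝ) ^ (-σ') ≤ 3 ^ (κ + 1) := by
      intro N hN
      rw [Finset.mem_range] at hN
      have h1 : ∑ a ∈ A with Nat.log 3 (a / 3) = N, (a : ℝ) ^ (-σ')
          ≤ ∑ a ∈ A with Nat.log 3 (a / 3) = N, (1 : ℝ) :=
        Finset.sum_le_sum fun a ha => hle1 a (Finset.mem_filter.1 ha).1
      refine h1.trans ?_
      rw [Finset.sum_const, nsmul_eq_mul, mul_one]
      have h2 : (A.filter (fun a => Nat.log 3 (a / 3) = N)).card ≤ 3 ^ (κ + 1) := by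
        apply card_le_of_div_lt (r := r) (fun a ha => hA.nice a (Finset.mem_filter.1 ha).1)
        intro a ha
        have h3 := (Finset.mem_filter.1 ha).2
        have h4 : a / 3 < 3 ^ (Nat.log 3 (a / 3) + 1) :=
          Nat.lt_pow_succ_log_self (by norm_num) _
        rw [h3] at h4
        exact h4.trans_le (Nat.pow_le_pow_right (by norm_num) (by omega))
      exact_mod_cast h2
    calc _ ≤ ∑ N ∈ Finset.range (κ + 1), (3 : ℝ) ^ (κ + 1) := Finset.sum_le_sum this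
      _ = _ := by rw [Finset.sum_const, Finset.card_range, nsmul_eq_mul]; push_cast; ring
  · have : ∀ K ∈ Finset.range L,
        ∑ a ∈ A with Nat.log 3 (a / 3) = κ + 1 + K, (a : ℝ) ^ (-σ') ≤ C2 * x ^ K := by
      intro K _
      have hb : ∀ a ∈ A.filter (fun a => Nat.log 3 (a / 3) = κ + 1 + K),
          3 ^ (κ + 1 + K) ≤ a / 3 ∧ a / 3 < 3 ^ (κ + 1 + K + 1) := fun a ha =>
        log_bounds (by omega) (Finset.mem_filter.1 ha).2
      have h1 : ∀ a ∈ A.filter (fun a => Nat.log 3 (a / 3) = κ + 1 + K),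
          (a : ℝ) ^ (-σ') ≤ ((3 : ℝ) ^ (-σ')) ^ K := by
        intro a ha
        have h2 : 3 ^ K ≤ a := by
          have h3 := (hb a ha).1
          have h4 : 3 ^ K ≤ 3 ^ (κ + 1 + K) := Nat.pow_le_pow_right (by norm_num) (by omega)
          omega
        have h5 : ((3 : ℝ) ^ K) ≤ a := by exact_mod_cast h2
        calc (a : ℝ) ^ (-σ') ≤ ((3 : ℝ) ^ K) ^ (-σ') :=
              Real.rpow_le_rpow_of_nonpos (by positivity) h5 (by linarith)
          _ = _ := by
              rw [← Real.rpow_natCast, ← Real.rpow_natCast, ← Real.rpow_mul (by norm_num),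
                ← Real.rpow_mul (by norm_num), mul_comm]
      have h6 := hcard (A.filter (fun a => Nat.log 3 (a / 3) = κ + 1 + K))
        (hA.subset (Finset.filter_subset _ _)) K (fun a ha => (hb a ha).2)
      calc _ ≤ ∑ a ∈ A with Nat.log 3 (a / 3) = κ + 1 + K, ((3 : ℝ) ^ (-σ')) ^ K :=
            Finset.sum_le_sum h1
        _ = ((A.filter (fun a => Nat.log 3 (a / 3) = κ + 1 + K)).card : ℝ)
            * ((3 : ℝ) ^ (-σ')) ^ K := by rw [Finset.sum_const, nsmul_eq_mul]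
        _ ≤ C2 * ((3 : ℝ) ^ (σ - ε * p / (p + 1))) ^ K * ((3 : ℝ) ^ (-σ')) ^ K := by gcongr
        _ = C2 * x ^ K := by
            rw [mul_assoc, ← mul_pow, hx, ← Real.rpow_add (by norm_num), sub_eq_add_neg
              (σ - ε * p / (p + 1)) σ']
    calc _ ≤ ∑ K ∈ Finset.range L, C2 * x ^ K := Finset.sum_le_sum this
      _ = C2 * ∑ K ∈ Finset.range L, x ^ K := by rw [Finset.mul_sum]
      _ ≤ _ := by
          have := geom_le hx0.le hx1 L
          gcongr

/-- Descent over an interval of exponents. -/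
theorem descend {r : ℕ} {σL σ1 η : ℝ} (hη : 0 < η) (hL : 0 ≤ σL) (hL1 : σL ≤ σ1)
    (h : ∀ σ, σL ≤ σ → σ ≤ σ1 → FinW r σ → ∀ σ', 0 ≤ σ' → σ - η < σ' → FinW r σ')
    (h1 : FinW r σ1) : FinW r σL := by
  have key : ∀ k : ℕ, FinW r (max σL (σ1 - k * (η / 2))) := by
    intro k
    induction k with
    | zero => simpa [max_eq_right hL1] using h1
    | succ k ih =>
      have hk : (0 : ℝ) ≤ k * (η / 2) := by positivity
      refine h _ (le_max_left _ _) (max_le hL1 (by linarith)) ih _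
        (hL.trans (le_max_left _ _)) ?_
      rcases le_total σL (σ1 - k * (η / 2)) with hle | hle
      · rw [max_eq_right hle]
        refine lt_of_lt_of_le ?_ (le_max_right _ _)
        push_cast
        linarith
      · rw [max_eq_left hle]
        refine lt_of_lt_of_le ?_ (le_max_left _ _)
        linarith
  obtain ⟨k, hk⟩ := exists_nat_gt ((σ1 - σL) / (η / 2))
  have := key k
  rw [div_lt_iff₀ (by positivity)] at hk
  rwa [max_eq_left (by linarith)] at this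

end Pool.Agent.Helper14
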