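import Pool.Agent.Helper14.Chain

set_option autoImplicit false
set_option linter.unusedVariables false

namespace Pool.Agent.Helper14

open Filter Topology

lemma card_le_of_div_lt' {S : Finset ℕ} (hS : ∀ a ∈ S, a % 3 = 2) {B : ℕ}
    (hB : ∀ a ∈ S, a / 3 < B) : S.card ≤ B := by
  have h1 : Set.InjOn (fun a => a / 3) (S : Set ℕ) := by
    intro a ha b hb hab
    have h1 := hS a ha
    have h2 := hS b hb
    simp only at hab
    omega
  have h2 : (S.image (fun a => a / 3)).card = S.card := Finset.card_image_of_injOn h1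
  rw [← h2, ← Finset.card_range B]
  apply Finset.card_le_card
  intro x hx
  obtain ⟨a, ha, rfl⟩ := Finset.mem_image.1 hx
  exact Finset.mem_range.2 (hB a ha)

/-- Bad nodes at scale `X`. -/
def Bad (κ : ℕ) (E P O σ u : ℝ) (X : ℕ) (n : ℕ) : Prop :=
  n % 3 = 2 ∧ (Nat.log 3 (n / 3) < κ + 2 ∨
    U E P O X 1 (4 * X) (Nat.log 3 (n / 3) - (κ + 1)) (3 ^ (Nat.log 3 (n / 3) + 2)) (n / 3)
      < 3 ^ σ * (3 ^ (-u)) ^ (Nat.log 3 (n / 3) - (κ + 1)))

open Classical in
/-- The total weight of the bad nodes is bounded uniformly in the scale. -/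
lemma bad_sum {p κ : ℕ} {σ ε E P O : ℝ} {c b : ℕ → ℝ} (h : RCert p κ σ ε E P O c b)
    (hp : 0 < p) (hσ : 0 ≤ σ) (hε : 0 < ε) :
    ∃ D : ℝ, ∀ X : ℕ, ∑ n ∈ Finset.Icc 1 (4 * X) with Bad κ E P O σ ((1 - σ) / p + ε / 2) X n,
      (n : ℝ) ^ (-σ) ≤ D := by
  obtain ⟨C, hC0, hCmax⟩ := exists_max κ c
  have hB : 0 < Bc p κ c C := Bc_pos h.cert hC0
  set B := Bc p κ c C with hBdef
  have hp' : (0 : ℝ) < p := by exact_mod_cast hp
  set u : ℝ := (1 - σ) / p + ε / 2 with hu
  set x : ℝ := 3 ^ (-(ε * p / 2)) with hx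
  have hx0 : 0 < x := by positivity
  have hx1 : x < 1 := Real.rpow_lt_one_of_one_lt_of_neg (by norm_num) (by
    have : 0 < ε * p / 2 := by positivity
    linarith)
  set C4 : ℝ := 9 * B * (3 ^ σ) ^ p with hC4
  refine ⟨(κ + 2) * 3 ^ (κ + 2) + C4 * (1 - x)⁻¹, ?_⟩
  intro X
  set S := (Finset.Icc 1 (4 * X)).filter (fun n => Bad κ E P O σ u X n) with hS
  have hSbad : ∀ n ∈ S, Bad κ E P O σ u X n := fun n hn => (Finset.mem_filter.1 hn).2
  set L := S.sup (fun a => Nat.log 3 (a / 3)) + 1 with hL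
  have hmaps : ∀ a ∈ S, Nat.log 3 (a / 3) ∈ Finset.range (κ + 2 + L) := by
    intro a ha
    rw [Finset.mem_range]
    have : Nat.log 3 (a / 3) ≤ S.sup (fun a => Nat.log 3 (a / 3)) :=
      Finset.le_sup (f := fun a => Nat.log 3 (a / 3)) ha
    omega
  rw [← Finset.sum_fiberwise_of_maps_to hmaps]
  rw [Finset.sum_range_add]
  have hle1 : ∀ a ∈ S, (a : ℝ) ^ (-σ) ≤ 1 := by
    intro a ha
    have : (1 : ℝ) ≤ a := by
      have := (hSbad a ha).1
      exact_mod_cast (by omega : 1 ≤ a)
    exact Real.rpow_le_one_of_one_le_of_nonpos this (by linarith)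
  apply add_le_add
  · have : ∀ N ∈ Finset.range (κ + 2),
        ∑ a ∈ S with Nat.log 3 (a / 3) = N, (a : ℝ) ^ (-σ) ≤ 3 ^ (κ + 2) := by
      intro N hN
      rw [Finset.mem_range] at hN
      have h1 : ∑ a ∈ S with Nat.log 3 (a / 3) = N, (a : ℝ) ^ (-σ)
          ≤ ∑ a ∈ S with Nat.log 3 (a / 3) = N, (1 : ℝ) :=
        Finset.sum_le_sum fun a ha => hle1 a (Finset.mem_filter.1 ha).1
      refine h1.trans ?_
      rw [Finset.sum_const, nsmul_eq_mul, mul_one]
      have h2 : (S.filter (fun a => Nat.log 3 (a / 3) = N)).card ≤ 3 ^ (κ + 2) := by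
        apply card_le_of_div_lt' (fun a ha => (hSbad a (Finset.mem_filter.1 ha).1).1)
        intro a ha
        have h3 := (Finset.mem_filter.1 ha).2
        have h4 : a / 3 < 3 ^ (Nat.log 3 (a / 3) + 1) :=
          Nat.lt_pow_succ_log_self (by norm_num) _
        rw [h3] at h4
        exact h4.trans_le (Nat.pow_le_pow_right (by norm_num) (by omega))
      exact_mod_cast h2
    calc _ ≤ ∑ N ∈ Finset.range (κ + 2), (3 : ℝ) ^ (κ + 2) := Finset.sum_le_sum this
      _ = _ := by rw [Finset.sum_const, Finset.card_range, nsmul_eq_mul]; push_cast; ring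
  · have : ∀ K ∈ Finset.range L,
        ∑ a ∈ S with Nat.log 3 (a / 3) = κ + 2 + K, (a : ℝ) ^ (-σ) ≤ C4 * x ^ K := by
      intro K _
      have hb : ∀ a ∈ S.filter (fun a => Nat.log 3 (a / 3) = κ + 2 + K),
          3 ^ (κ + 2 + K) ≤ a / 3 ∧ a / 3 < 3 ^ (κ + 2 + K + 1) := fun a ha =>
        log_bounds (by omega) (Finset.mem_filter.1 ha).2
      have h1 : ∀ a ∈ S.filter (fun a => Nat.log 3 (a / 3) = κ + 2 + K),
          (a : ℝ) ^ (-σ) ≤ ((3 : ℝ) ^ (-σ)) ^ (K + 1) := by
        intro a ha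
        have h2 : 3 ^ (K + 1) ≤ a := by
          have h3 := (hb a ha).1
          have h4 : 3 ^ (K + 1) ≤ 3 ^ (κ + 2 + K) := Nat.pow_le_pow_right (by norm_num) (by omega)
          omega
        have h5 : ((3 : ℝ) ^ (K + 1)) ≤ a := by exact_mod_cast h2
        calc (a : ℝ) ^ (-σ) ≤ ((3 : ℝ) ^ (K + 1)) ^ (-σ) :=
              Real.rpow_le_rpow_of_nonpos (by positivity) h5 (by linarith)
          _ = _ := by
              rw [← Real.rpow_natCast, ← Real.rpow_natCast, ← Real.rpow_mul (by norm_num),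
                ← Real.rpow_mul (by norm_num), mul_comm]
      set y : ℝ := 3 ^ σ * (3 ^ (-u)) ^ (K + 1) with hy
      have hy0 : 0 < y := by positivity
      set SK := S.filter (fun a => Nat.log 3 (a / 3) = κ + 2 + K) with hSK
      have hinj : Set.InjOn (fun a => a / 3) (SK : Set ℕ) := by
        intro a ha b hb hab
        have h1 := (hSbad a (Finset.mem_filter.1 ha).1).1
        have h2 := (hSbad b (Finset.mem_filter.1 hb).1).1
        simp only at hab
        omega
      have hcard : (SK.card : ℝ) ≤ 3 ^ (K + 2) * B * y ^ p := by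
        rw [← Finset.card_image_of_injOn hinj]
        apply population h.cert h.E0 h.P0 h.O0 hC0 hCmax X (4 * X) (K + 1) (K + 2)
          (3 ^ (κ + 2 + K + 2)) (by omega) hy0
        intro t ht
        obtain ⟨a, ha, rfl⟩ := Finset.mem_image.1 ht
        have h2 := (hb a ha).2
        refine ⟨by
          have e : κ + 1 + (K + 2) = κ + 2 + K + 1 := by ring
          rw [e]; exact h2, ?_⟩
        have h3 := (hSbad a (Finset.mem_filter.1 ha).1).2
        have h4 := (Finset.mem_filter.1 ha).2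
        rw [h4] at h3
        rcases h3 with h3 | h3
        · omega
        · have e : κ + 2 + K - (κ + 1) = K + 1 := by omega
          rw [e] at h3
          exact h3
      calc _ ≤ ∑ a ∈ SK, ((3 : ℝ) ^ (-σ)) ^ (K + 1) := Finset.sum_le_sum h1
        _ = (SK.card : ℝ) * ((3 : ℝ) ^ (-σ)) ^ (K + 1) := by rw [Finset.sum_const, nsmul_eq_mul]
        _ ≤ 3 ^ (K + 2) * B * y ^ p * ((3 : ℝ) ^ (-σ)) ^ (K + 1) := by gcongr
        _ = 3 * B * (3 ^ σ) ^ p * (3 ^ (K + 1) * (((3 : ℝ) ^ (-u)) ^ (K + 1)) ^ p *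
              ((3 : ℝ) ^ (-σ)) ^ (K + 1)) := by rw [hy, mul_pow]; ring
        _ = 3 * B * (3 ^ σ) ^ p * x ^ (K + 1) := by
            congr 1
            rw [← pow_mul, mul_comm (K + 1) p, pow_mul, ← mul_pow, ← mul_pow]
            congr 1
            have e3 : (3 : ℝ) = 3 ^ (1 : ℝ) := by rw [Real.rpow_one]
            rw [← Real.rpow_natCast ((3 : ℝ) ^ (-u)) p, ← Real.rpow_mul (by norm_num), hx]
            nth_rewrite 1 [e3]
            rw [← Real.rpow_add (by norm_num), ← Real.rpow_add (by norm_num)]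
            congr 1
            rw [hu]
            field_simp
            ring
        _ ≤ 3 * B * (3 ^ σ) ^ p * x ^ K := by
            rw [pow_succ]
            have : x ^ K * x ≤ x ^ K := by
              have : 0 < x ^ K := by positivity
              nlinarith
            gcongr
        _ ≤ C4 * x ^ K := by
            rw [hC4]
            have : 0 < B * (3 ^ σ) ^ p * x ^ K := by positivity
            nlinarith
    calc _ ≤ ∑ K ∈ Finset.range L, C4 * x ^ K := Finset.sum_le_sum this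
      _ = C4 * ∑ K ∈ Finset.range L, x ^ K := by rw [Finset.mul_sum]
      _ ≤ _ := by
          have := geom_le hx0.le hx1 L
          gcongr

open Classical in
/-- The counting bound at the scale `4X`. -/
theorem final_stage {r p κ : ℕ} {σ ε E P O : ℝ} {c b : ℕ → ℝ} (h : RCert p κ σ ε E P O c b)
    (hp : 0 < p) (hσ : 0 ≤ σ) (hσ1 : σ ≤ 1) (hε : 0 < ε) (hr : ¬ FinW r σ) :
    ∃ X₀ : ℕ, ∀ X : ℕ, X₀ ≤ X →
      3 ^ (-σ) * (X : ℝ) ^ (σ - ((1 - σ) / p + ε / 2)) ≤
        (((Finset.Icc 1 (4 * X)).filter (fun n => Reach r n)).card : ℝ) := by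
  obtain ⟨D, hD⟩ := bad_sum h hp hσ hε
  have hp' : (0 : ℝ) < p := by exact_mod_cast hp
  set u : ℝ := (1 - σ) / p + ε / 2 with hu
  have hu0 : 0 ≤ u := by
    have : 0 ≤ (1 - σ) / p := div_nonneg (by linarith) hp'.le
    linarith
  unfold FinW at hr
  push Not at hr
  obtain ⟨A, hA, hAw⟩ := hr (D + 1)
  refine ⟨A.sup id + 1, ?_⟩
  intro X hX
  have hX1 : 1 ≤ X := by omega
  have hX1r : (1 : ℝ) ≤ X := by exact_mod_cast hX1
  have hXpos : (0 : ℝ) < X := by linarith
  set S := Finset.Icc 1 (4 * X) with hS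
  set Λ : ℝ := 3 ^ σ * (X : ℝ) ^ (u - σ) with hΛ
  have hΛ0 : 0 < Λ := by positivity
  set w : ℕ → ℝ := fun n => Λ + if Bad κ E P O σ u X n then (n : ℝ) ^ (-σ) else 0 with hw
  have hw0 : ∀ n, 0 ≤ w n := by
    intro n
    simp only [hw]
    split_ifs <;> positivity
  have hwΛ : ∀ n, Λ ≤ w n := by
    intro n
    simp only [hw]
    split_ifs
    · have : 0 ≤ (n : ℝ) ^ (-σ) := by positivity
      linarith
    · linarith
  have h3σ : (1 : ℝ) ≤ 3 ^ σ := Real.one_le_rpow (by norm_num) hσ
  have hmassw : ∀ n ∈ S, w n ≤ mass w S n := by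
    intro n hn
    exact Finset.single_le_sum (f := w) (fun m _ => hw0 m)
      (Finset.mem_filter.2 ⟨hn, Reach.refl n⟩)
  -- the key claim
  have key : ∀ m : ℕ, ∀ a : ℕ, Nice r a → a ≤ 4 * X → (S.filter (fun n => Reach a n)).card = m →
      (a : ℝ) ^ (-σ) ≤ mass w S a := by
    intro m
    induction m using Nat.strong_induction_on with
    | _ m ih =>
      intro a ha haX hcard
      have haS : a ∈ S := Finset.mem_Icc.2 ⟨by have := ha.pos; omega, haX⟩
      have ha0 : (0 : ℝ) < a := by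
        have := ha.pos
        exact_mod_cast (by omega : 0 < a)
      by_cases haX' : X ≤ a
      · -- large nodes
        have h1 : (a : ℝ) ^ (-σ) ≤ (X : ℝ) ^ (-σ) :=
          Real.rpow_le_rpow_of_nonpos hXpos (by exact_mod_cast haX') (by linarith)
        have h2 : (X : ℝ) ^ (-σ) ≤ Λ := by
          have h3 : (X : ℝ) ^ (-σ) ≤ (X : ℝ) ^ (u - σ) :=
            Real.rpow_le_rpow_of_exponent_le hX1r (by linarith)
          have h4 : 0 ≤ (X : ℝ) ^ (u - σ) := by positivity
          rw [hΛ]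
          nlinarith
        exact h1.trans (h2.trans ((hwΛ a).trans (hmassw a haS)))
      push Not at haX'
      by_cases hbad : Bad κ E P O σ u X a
      · refine le_trans ?_ (hmassw a haS)
        simp only [hw, if_pos hbad]
        linarith
      -- good nodes
      have hgood : κ + 2 ≤ Nat.log 3 (a / 3) ∧
          3 ^ σ * (3 ^ (-u)) ^ (Nat.log 3 (a / 3) - (κ + 1)) ≤
          U E P O X 1 (4 * X) (Nat.log 3 (a / 3) - (κ + 1)) (3 ^ (Nat.log 3 (a / 3) + 2)) (a / 3)
          := by
        unfold Bad at hbad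
        push Not at hbad
        exact hbad ha.mod
      obtain ⟨hN, hUy⟩ := hgood
      set N := Nat.log 3 (a / 3) with hNdef
      obtain ⟨K₀, hK₀⟩ : ∃ K₀, N = κ + 2 + K₀ := ⟨N - (κ + 2), by omega⟩
      have hNK : N - (κ + 1) = K₀ + 1 := by omega
      rw [hNK] at hUy
      obtain ⟨hb1, hb2⟩ := log_bounds (t := a / 3) (N := N) (by omega) hNdef.symm
      have ha3 : 3 * (a / 3) + 2 = a := by have := ha.mod; omega
      set ρ : ℝ := 3 ^ (N + 2) with hρ
      have hρ0 : 0 < ρ := by positivity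
      have hpow : 3 ^ (N + 2) = 9 * 3 ^ N := by rw [pow_add]; ring
      have hpow' : 3 ^ (N + 1) = 3 * 3 ^ N := by rw [pow_add]; ring
      have hρa : ρ ≤ 3 * a := by
        have h1 : 3 ^ (N + 2) ≤ 3 * a := by omega
        have h2 : ((3 ^ (N + 2) : ℕ) : ℝ) ≤ ((3 * a : ℕ) : ℝ) := by exact_mod_cast h1
        rw [hρ]; push_cast at h2; exact h2
      have haρ : (a : ℝ) ≤ ρ := by
        have h1 : a ≤ 3 ^ (N + 2) := by omega
        have h2 : (a : ℝ) ≤ ((3 ^ (N + 2) : ℕ) : ℝ) := by exact_mod_cast h1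
        rw [hρ]; push_cast at h2; exact h2
      have haXr : (a : ℝ) < X := by exact_mod_cast haX'
      have h3X : (3 : ℝ) ^ (K₀ + 1) ≤ X := by
        have h1 : 3 ^ (K₀ + 1) ≤ 3 ^ N := Nat.pow_le_pow_right (by norm_num) (by omega)
        have h2 : 3 ^ (K₀ + 1) ≤ X := by omega
        exact_mod_cast h2
      set G : ℝ := 3 ^ ((1 - σ) / p + ε) with hG
      have hG0 : 0 < G := by positivity
      have h3u : (3 : ℝ) ^ u ≤ G :=
        Real.rpow_le_rpow_of_exponent_le (by norm_num) (by rw [hu]; linarith)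
      -- the domain
      let Dm : ℕ → ℕ → Prop := fun K t => Nice r (3 * t + 2) ∧ K ≤ K₀ + 1 ∧
        Reach a (3 * t + 2) ∧ (K < K₀ + 1 → 3 * t + 2 ≠ a)
      have hne : ∀ t' t, Reach a (3 * t + 2) → Nice r (3 * t + 2) →
          Reach (3 * t + 2) (3 * t' + 2) → t' ≠ t → 3 * t' + 2 ≠ a := by
        intro t' t h1 h2 h3 h4 h5
        have h6 : 3 * t + 2 = 3 * t' + 2 := h2.np.antisymm h3 (h5 ▸ h1)
        omega
      have hblk := block (superAdd_mass r hw0 S) (σ := σ) (G := G) (X := (X : ℝ)) (v := 1)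
        h.E0.le h.P0.le h.O0.le h.hE h.hP h.hO (fun K => ((3 : ℝ) ^ u) ^ K)
        (fun K => by positivity)
        (fun K => by
          rw [pow_succ']
          have : (0 : ℝ) ≤ (3 ^ u) ^ K := by positivity
          gcongr) hXpos zero_le_one Dm (fun _ _ hd => hd.1)
        (fun K t hd => by
          refine ⟨hd.1.of_reach (reach_E t) (by omega), hd.2.1, hd.2.2.1.trans (reach_E t), ?_⟩
          intro _
          exact hne _ t hd.2.2.1 hd.1 (reach_E t) (by omega))
        (fun K q hd => by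
          refine ⟨hd.1.of_reach (reach_P q) (by omega), by omega, hd.2.2.1.trans (reach_P q), ?_⟩
          intro _
          have hq : 4 * q ≠ 3 * q := by
            rintro hq
            have hq0 : q = 0 := by omega
            subst hq0
            exact hd.1.np 1 (by
              show col (col 2) = 2
              decide)
          exact hne _ _ hd.2.2.1 hd.1 (reach_P q) hq)
        (fun K q hd => by
          refine ⟨hd.1.of_reach (reach_O q) (by omega), by omega, hd.2.2.1.trans (reach_O q), ?_⟩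
          intro _
          exact hne _ _ hd.2.2.1 hd.1 (reach_O q) (by omega))
        (fun K ρ' t hd ht hXρ hρX => by
          have hmem : 3 * t + 2 ∈ S := by
            rw [hS, Finset.mem_Icc]
            refine ⟨by omega, ?_⟩
            have : ((3 * t + 2 : ℕ) : ℝ) ≤ ((4 * X : ℕ) : ℝ) := by push_cast; linarith
            exact_mod_cast this
          refine le_trans ?_ ((hwΛ _).trans (hmassw _ hmem))
          rw [mul_one, hΛ]
          have h1 : ρ' ^ (-σ) ≤ (X : ℝ) ^ (-σ) :=
            Real.rpow_le_rpow_of_nonpos hXpos hXρ (by linarith)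
          have hρ'0 : 0 ≤ ρ' ^ (-σ) := Real.rpow_nonneg (hXpos.le.trans hXρ) _
          have h2 : ((3 : ℝ) ^ u) ^ K ≤ (X : ℝ) ^ u := by
            calc ((3 : ℝ) ^ u) ^ K ≤ ((3 : ℝ) ^ u) ^ (K₀ + 1) :=
                  pow_le_pow_right₀ (Real.one_le_rpow (by norm_num) hu0) hd.2.1
              _ = ((3 : ℝ) ^ (K₀ + 1)) ^ u := by
                  rw [← Real.rpow_natCast, ← Real.rpow_natCast, ← Real.rpow_mul (by norm_num),
                    ← Real.rpow_mul (by norm_num), mul_comm]
              _ ≤ (X : ℝ) ^ u := Real.rpow_le_rpow (by positivity) h3X hu0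
          calc ((3 : ℝ) ^ u) ^ K * ρ' ^ (-σ) ≤ (X : ℝ) ^ u * (X : ℝ) ^ (-σ) := by gcongr
            _ = (X : ℝ) ^ (u - σ) := by rw [← Real.rpow_add hXpos]; rfl
            _ ≤ 3 ^ σ * (X : ℝ) ^ (u - σ) := by
                have : 0 ≤ (X : ℝ) ^ (u - σ) := by positivity
                nlinarith)
        (fun ρ' t hd ht hρX => by
          rw [pow_zero, one_mul]
          have hlt : (S.filter (fun n => Reach (3 * t + 2) n)).card < m := by
            rw [← hcard]
            apply Finset.card_lt_card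
            rw [Finset.ssubset_iff_of_subset]
            · refine ⟨a, Finset.mem_filter.2 ⟨haS, Reach.refl a⟩, ?_⟩
              intro hcon
              have h1 := (Finset.mem_filter.1 hcon).2
              exact hd.2.2.2 (by omega) (hd.1.np.antisymm h1 hd.2.2.1)
            · intro n hn
              rw [Finset.mem_filter] at hn ⊢
              exact ⟨hn.1, hd.2.2.1.trans hn.2⟩
          have hle : 3 * t + 2 ≤ 4 * X := by
            have : ((3 * t + 2 : ℕ) : ℝ) ≤ ((4 * X : ℕ) : ℝ) := by push_cast; linarith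
            exact_mod_cast this
          have h1 := ih _ hlt (3 * t + 2) hd.1 hle rfl
          refine le_trans ?_ h1
          exact Real.rpow_le_rpow_of_nonpos (by positivity) (by push_cast; exact ht) (by linarith))
        (4 * X) (K₀ + 1) ρ (a / 3) ⟨by rwa [ha3], le_rfl, by rw [ha3]; exact Reach.refl a,
          fun h => absurd h (lt_irrefl _)⟩
        (by
          have h1 : ((3 * (a / 3) + 2 : ℕ) : ℝ) ≤ ρ := by rw [ha3]; exact haρ
          push_cast at h1
          exact h1)
        (by linarith) (Or.inr (by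
          have h1 : (X : ℝ) * 3 ^ (K₀ + 1) ≤ 2 ^ (4 * X) := by
            have h2 : X * X < 2 ^ (4 * X) := by
              have h3 : X < 2 ^ X := Nat.lt_two_pow_self
              calc X * X < 2 ^ X * 2 ^ X := Nat.mul_lt_mul'' h3 h3
                _ = 2 ^ (2 * X) := by rw [← pow_add]; congr 1; ring
                _ ≤ 2 ^ (4 * X) := Nat.pow_le_pow_right (by norm_num) (by omega)
            have h4 : (X : ℝ) * X ≤ 2 ^ (4 * X) := by exact_mod_cast h2.le
            nlinarith
          have h5 : (1 : ℝ) ≤ ρ := by rw [hρ]; exact one_le_pow₀ (by norm_num)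
          have h6 : (0 : ℝ) ≤ 2 ^ (4 * X) := by positivity
          nlinarith))
      simp only [ha3] at hblk
      refine le_trans ?_ hblk
      -- numeric estimate
      have h1 : (3 * (a : ℝ)) ^ (-σ) ≤ ρ ^ (-σ) :=
        Real.rpow_le_rpow_of_nonpos hρ0 hρa (by linarith)
      rw [Real.mul_rpow (by norm_num) ha0.le] at h1
      calc (a : ℝ) ^ (-σ) = ((3 : ℝ) ^ u) ^ (K₀ + 1) * (3 ^ (-σ) * (a : ℝ) ^ (-σ)) *
            (3 ^ σ * (3 ^ (-u)) ^ (K₀ + 1)) := by
            rw [Real.rpow_neg (by norm_num : (0 : ℝ) ≤ 3) u,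
              Real.rpow_neg (by norm_num : (0 : ℝ) ≤ 3) σ, inv_pow]
            have e1 : ((3 : ℝ) ^ u) ^ (K₀ + 1) ≠ 0 := by positivity
            have e2 : (3 : ℝ) ^ σ ≠ 0 := by positivity
            generalize ((3 : ℝ) ^ u) ^ (K₀ + 1) = z at e1
            field_simp
        _ ≤ ((3 : ℝ) ^ u) ^ (K₀ + 1) * ρ ^ (-σ) *
            U E P O X 1 (4 * X) (K₀ + 1) ρ (a / 3) := by gcongr
  -- summation
  have h1 : ∑ a ∈ A, (a : ℝ) ^ (-σ) ≤ mass w S r := by
    refine le_trans (Finset.sum_le_sum fun a ha => ?_) (sum_mass_le hw0 S hA)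
    have h2 : a ≤ A.sup id := Finset.le_sup (f := id) ha
    exact key _ a (hA.nice a ha) (by omega) rfl
  have h2 : mass w S r ≤ Λ * ((S.filter (fun n => Reach r n)).card : ℝ) + D := by
    unfold mass
    simp only [hw]
    rw [Finset.sum_add_distrib, Finset.sum_const, nsmul_eq_mul, mul_comm]
    apply add_le_add le_rfl
    rw [← Finset.sum_filter]
    refine le_trans ?_ (hD X)
    apply Finset.sum_le_sum_of_subset_of_nonneg
    · intro n hn
      rw [Finset.mem_filter, Finset.mem_filter] at hn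
      rw [Finset.mem_filter]
      exact ⟨hn.1.1, hn.2⟩
    · intro n _ _; positivity
  have h3 : 1 ≤ Λ * ((S.filter (fun n => Reach r n)).card : ℝ) := by linarith
  have h4 : 3 ^ (-σ) * (X : ℝ) ^ (σ - u) = Λ⁻¹ := by
    rw [hΛ, mul_inv, ← Real.rpow_neg (by norm_num), ← Real.rpow_neg hXpos.le, neg_sub]
  rw [h4]
  rwa [inv_le_iff_one_le_mul₀' hΛ0]

end Pool.Agent.Helper14
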