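import Pool.Agent.Helper14.Tree

set_option autoImplicit false
set_option linter.unusedVariables false

namespace Pool.Agent.Helper14

/-- Reverse Minkowski inequality for the exponent `-p`. -/
lemma pmean_add {ι : Type*} (s : Finset ι) (u v : ι → ℝ) (p : ℕ) (n α β : ℝ)
    (hu : ∀ i ∈ s, 0 < u i) (hv : ∀ i ∈ s, 0 < v i) (hα : 0 < α) (hβ : 0 < β)
    (h1 : ∑ i ∈ s, (u i)⁻¹ ^ p ≤ n * α⁻¹ ^ p) (h2 : ∑ i ∈ s, (v i)⁻¹ ^ p ≤ n * β⁻¹ ^ p) :
    ∑ i ∈ s, (u i + v i)⁻¹ ^ p ≤ n * (α + β)⁻¹ ^ p := by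
  have hab : 0 < α + β := by positivity
  have key : ∀ i ∈ s, (u i + v i)⁻¹ ^ p ≤
      (α + β)⁻¹ ^ p * (α / (α + β) * (α ^ p * (u i)⁻¹ ^ p) +
        β / (α + β) * (β ^ p * (v i)⁻¹ ^ p)) := by
    intro i hi
    have hui := hu i hi
    have hvi := hv i hi
    have hx : u i / α ∈ Set.Ioi (0 : ℝ) := by simp only [Set.mem_Ioi]; positivity
    have hy : v i / β ∈ Set.Ioi (0 : ℝ) := by simp only [Set.mem_Ioi]; positivity
    have ha' : 0 ≤ α / (α + β) := by positivity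
    have hb' : 0 ≤ β / (α + β) := by positivity
    have hab' : α / (α + β) + β / (α + β) = 1 := by field_simp
    have hconv := (convexOn_zpow (𝕜 := ℝ) (-(p : ℤ))).2 hx hy ha' hb' hab'
    simp only [smul_eq_mul, zpow_neg, zpow_natCast] at hconv
    have e1 : α / (α + β) * (u i / α) + β / (α + β) * (v i / β) = (u i + v i) / (α + β) := by
      field_simp
    rw [e1] at hconv
    have e2 : (u i + v i)⁻¹ ^ p = (α + β)⁻¹ ^ p * (((u i + v i) / (α + β)) ^ p)⁻¹ := by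
      rw [← inv_pow, ← mul_pow]
      congr 1
      field_simp
    have e3 : ((u i / α) ^ p)⁻¹ = α ^ p * (u i)⁻¹ ^ p := by
      rw [← inv_pow, ← mul_pow]
      congr 1
      field_simp
    have e4 : ((v i / β) ^ p)⁻¹ = β ^ p * (v i)⁻¹ ^ p := by
      rw [← inv_pow, ← mul_pow]
      congr 1
      field_simp
    rw [e2]
    rw [e3, e4] at hconv
    exact mul_le_mul_of_nonneg_left hconv (by positivity)
  calc ∑ i ∈ s, (u i + v i)⁻¹ ^ p
      ≤ ∑ i ∈ s, (α + β)⁻¹ ^ p * (α / (α + β) * (α ^ p * (u i)⁻¹ ^ p) +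
        β / (α + β) * (β ^ p * (v i)⁻¹ ^ p)) := Finset.sum_le_sum key
    _ = (α + β)⁻¹ ^ p * (α / (α + β) * (α ^ p * ∑ i ∈ s, (u i)⁻¹ ^ p) +
        β / (α + β) * (β ^ p * ∑ i ∈ s, (v i)⁻¹ ^ p)) := by
        rw [← Finset.mul_sum, Finset.sum_add_distrib, ← Finset.mul_sum, ← Finset.mul_sum,
          ← Finset.mul_sum, ← Finset.mul_sum]
    _ ≤ (α + β)⁻¹ ^ p * (α / (α + β) * (α ^ p * (n * α⁻¹ ^ p)) +
        β / (α + β) * (β ^ p * (n * β⁻¹ ^ p))) := by
        gcongr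
    _ = n * (α + β)⁻¹ ^ p := by
        have e5 : α ^ p * (n * α⁻¹ ^ p) = n := by
          rw [mul_left_comm, ← mul_pow, mul_inv_cancel₀ hα.ne', one_pow, mul_one]
        have e6 : β ^ p * (n * β⁻¹ ^ p) = n := by
          rw [mul_left_comm, ← mul_pow, mul_inv_cancel₀ hβ.ne', one_pow, mul_one]
        rw [e5, e6]
        field_simp

/-- Scaling. -/
lemma pmean_smul {ι : Type*} (s : Finset ι) (u : ι → ℝ) (p : ℕ) (n α c : ℝ) (hc : 0 < c)
    (h1 : ∑ i ∈ s, (u i)⁻¹ ^ p ≤ n * α⁻¹ ^ p) :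
    ∑ i ∈ s, (c * u i)⁻¹ ^ p ≤ n * (c * α)⁻¹ ^ p := by
  have : ∀ x : ℝ, (c * x)⁻¹ ^ p = c⁻¹ ^ p * x⁻¹ ^ p := fun x => by rw [mul_inv, mul_pow]
  simp only [this]
  rw [← Finset.mul_sum]
  calc c⁻¹ ^ p * ∑ i ∈ s, (u i)⁻¹ ^ p ≤ c⁻¹ ^ p * (n * α⁻¹ ^ p) := by gcongr
    _ = _ := by ring

/-- Sums of periodic functions over an affine reparametrisation. -/
lemma sum_periodic_affine (F : ℕ → ℝ) (M a δ : ℕ) (hM : 0 < M) (ha : Nat.Coprime a M)
    (hF : ∀ x y, x % M = y % M → F x = F y) :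
    ∑ s ∈ Finset.range M, F (a * s + δ) = ∑ s ∈ Finset.range M, F s := by
  have hmaps : Set.MapsTo (fun s => (a * s + δ) % M) (Finset.range M : Set ℕ)
      (Finset.range M : Set ℕ) := by
    intro s _
    simp only [Finset.coe_range, Set.mem_Iio]
    exact Nat.mod_lt _ hM
  have hinj : Set.InjOn (fun s => (a * s + δ) % M) (Finset.range M : Set ℕ) := by
    intro x hx y hy hxy
    simp only [Finset.coe_range, Set.mem_Iio] at hx hy
    have h1 : a * x + δ ≡ a * y + δ [MOD M] := hxy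
    have h2 : a * x ≡ a * y [MOD M] := Nat.ModEq.add_right_cancel' δ h1
    have h3 : x ≡ y [MOD M] := Nat.ModEq.cancel_left_of_coprime (by
      rw [Nat.coprime_comm] at ha; exact ha) h2
    have h4 : x % M = y % M := h3
    rwa [Nat.mod_eq_of_lt hx, Nat.mod_eq_of_lt hy] at h4
  have hsurj : Set.SurjOn (fun s => (a * s + δ) % M) (Finset.range M : Set ℕ)
      (Finset.range M : Set ℕ) :=
    Finset.surjOn_of_injOn_of_card_le _ hmaps hinj le_rfl
  refine Finset.sum_nbij (fun s => (a * s + δ) % M) hmaps hinj hsurj ?_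
  intro s _
  exact hF _ _ (Nat.mod_mod _ _).symm

/-- Splitting a sum over `range (3 * M)` by residues mod 3. -/
lemma sum_range_three_mul (F : ℕ → ℝ) (M : ℕ) :
    ∑ s ∈ Finset.range (3 * M), F s =
      ∑ s ∈ Finset.range M, F (3 * s) + ∑ s ∈ Finset.range M, F (3 * s + 1)
        + ∑ s ∈ Finset.range M, F (3 * s + 2) := by
  induction M with
  | zero => simp
  | succ M ih =>
    rw [show 3 * (M + 1) = 3 * M + 1 + 1 + 1 by ring, Finset.sum_range_succ, Finset.sum_range_succ,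
      Finset.sum_range_succ, ih, Finset.sum_range_succ, Finset.sum_range_succ,
      Finset.sum_range_succ]
    ring

/-- The truncated value recursion. -/
noncomputable def U (E P O X v : ℝ) : ℕ → ℕ → ℝ → ℕ → ℝ
  | 0, _, _, _ => v
  | f + 1, 0, ρ, _ => if X ≤ ρ then v else 1
  | f + 1, K + 1, ρ, t => if X ≤ ρ then v else
      E * U E P O X v f (K + 1) (4 * ρ) (4 * t + 2) +
        (if t % 3 = 0 then P * U E P O X v f K (4 * ρ / 3) (4 * (t / 3))
          else if t % 3 = 2 then O * U E P O X v f K (2 * ρ / 3) (2 * (t / 3) + 1) else 0)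

lemma U_periodic (E P O X v : ℝ) (f : ℕ) : ∀ (K : ℕ) (ρ : ℝ) (t t' : ℕ),
    t % 3 ^ K = t' % 3 ^ K → U E P O X v f K ρ t = U E P O X v f K ρ t' := by
  induction f with
  | zero => intro K ρ t t' _; simp only [U]
  | succ f ih =>
    intro K ρ t t' h
    match K, h with
    | 0, _ => simp only [U]
    | K + 1, h =>
      have hm : t % 3 = t' % 3 := by
        have h1 : t % 3 ^ (K + 1) % 3 = t' % 3 ^ (K + 1) % 3 := by rw [h]
        rwa [Nat.mod_mod_of_dvd _ (dvd_pow_self 3 (by omega)),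
          Nat.mod_mod_of_dvd _ (dvd_pow_self 3 (by omega))] at h1
      have hE : (4 * t + 2) % 3 ^ (K + 1) = (4 * t' + 2) % 3 ^ (K + 1) :=
        Nat.ModEq.add_right 2 (Nat.ModEq.mul_left 4 h)
      have hdiv : t / 3 ≡ t' / 3 [MOD 3 ^ K] := by
        have h2 : 3 * (t / 3) + t % 3 ≡ 3 * (t' / 3) + t % 3 [MOD 3 * 3 ^ K] := by
          have e1 : 3 * (t / 3) + t % 3 = t := Nat.div_add_mod t 3
          have e2 : 3 * (t' / 3) + t % 3 = t' := by rw [hm]; exact Nat.div_add_mod t' 3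
          rw [e1, e2, ← pow_succ']
          exact h
        have h3 := Nat.ModEq.add_right_cancel' _ h2
        exact Nat.ModEq.mul_left_cancel' (by norm_num) h3
      simp only [U]
      rw [ih (K + 1) (4 * ρ) _ _ hE, hm]
      have hP : (4 * (t / 3)) % 3 ^ K = (4 * (t' / 3)) % 3 ^ K := Nat.ModEq.mul_left 4 hdiv
      have hO : (2 * (t / 3) + 1) % 3 ^ K = (2 * (t' / 3) + 1) % 3 ^ K :=
        Nat.ModEq.add_right 1 (Nat.ModEq.mul_left 2 hdiv)
      rw [ih K (4 * ρ / 3) _ _ hP, ih K (2 * ρ / 3) _ _ hO]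

lemma U_pos {E P O X v : ℝ} (hE : 0 < E) (hP : 0 < P) (hO : 0 < O) (hv : 0 < v) (f : ℕ) :
    ∀ (K : ℕ) (ρ : ℝ) (t : ℕ), 0 < U E P O X v f K ρ t := by
  induction f with
  | zero => intro K ρ t; simpa only [U] using hv
  | succ f ih =>
    intro K ρ t
    match K with
    | 0 =>
      simp only [U]
      split_ifs
      · exact hv
      · exact one_pos
    | K + 1 =>
      simp only [U]
      have h1 := ih (K + 1) (4 * ρ) (4 * t + 2)
      have h2 := ih K (4 * ρ / 3) (4 * (t / 3))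
      have h3 := ih K (2 * ρ / 3) (2 * (t / 3) + 1)
      split_ifs
      · exact hv
      · positivity
      · positivity
      · positivity

/-- The real certificate of level `κ + 1`: tables `c` on residues mod `3^(κ+1)` and `b` on residues
mod `3^κ`. -/
structure Cert (p κ : ℕ) (E P O : ℝ) (c b : ℕ → ℝ) : Prop where
  c_pos : ∀ t, t < 3 ^ (κ + 1) → 0 < c t
  b_pos : ∀ s, s < 3 ^ κ → 0 < b s
  h0 : ∀ q, q < 3 ^ κ →
    c (3 * q) ≤ E * c ((4 * (3 * q) + 2) % 3 ^ (κ + 1)) + P * b ((4 * q) % 3 ^ κ)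
  h1 : ∀ q, q < 3 ^ κ → c (3 * q + 1) ≤ E * c ((4 * (3 * q + 1) + 2) % 3 ^ (κ + 1))
  h2 : ∀ q, q < 3 ^ κ →
    c (3 * q + 2) ≤ E * c ((4 * (3 * q + 2) + 2) % 3 ^ (κ + 1)) + O * b ((2 * q + 1) % 3 ^ κ)
  hm : ∀ s, s < 3 ^ κ →
    (c s)⁻¹ ^ p + (c (s + 3 ^ κ))⁻¹ ^ p + (c (s + 2 * 3 ^ κ))⁻¹ ^ p ≤ 3 * (b s)⁻¹ ^ p

lemma coprime_pow_three (a j : ℕ) (h : a % 3 ≠ 0) : Nat.Coprime a (3 ^ j) := by
  apply Nat.Coprime.pow_right
  rw [Nat.coprime_comm, Nat.Prime.coprime_iff_not_dvd Nat.prime_three]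
  omega

/-- Reindexing the residue class of the even child. -/
lemma sum_class_E (W : ℕ → ℝ) (κ j K m : ℕ) (hK : K ≤ j) (a d : ℕ) (ha : a % 3 ≠ 0)
    (hW : ∀ x y, x % 3 ^ K = y % 3 ^ K → W x = W y) :
    ∑ s ∈ Finset.range (3 ^ j), W (a * (m + 3 ^ κ * s) + d) =
      ∑ s ∈ Finset.range (3 ^ j), W ((a * m + d) % 3 ^ κ + 3 ^ κ * s) := by
  have hper : ∀ x y, x % 3 ^ j = y % 3 ^ j →
      W ((a * m + d) % 3 ^ κ + 3 ^ κ * x) = W ((a * m + d) % 3 ^ κ + 3 ^ κ * y) := by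
    intro x y hxy
    apply hW
    have h1 : x ≡ y [MOD 3 ^ K] := Nat.ModEq.of_dvd (pow_dvd_pow 3 hK) hxy
    exact Nat.ModEq.add_left _ (Nat.ModEq.mul_left _ h1)
  rw [← sum_periodic_affine (fun s => W ((a * m + d) % 3 ^ κ + 3 ^ κ * s)) (3 ^ j) a
    ((a * m + d) / 3 ^ κ) (by positivity) (coprime_pow_three a j ha) hper]
  apply Finset.sum_congr rfl
  intro s _
  congr 1
  have := Nat.mod_add_div (a * m + d) (3 ^ κ)
  calc a * (m + 3 ^ κ * s) + d = (a * m + d) + 3 ^ κ * (a * s) := by ring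
    _ = ((a * m + d) % 3 ^ κ + 3 ^ κ * ((a * m + d) / 3 ^ κ)) + 3 ^ κ * (a * s) := by rw [this]
    _ = _ := by ring

/-- Key bound: `p`-mean over residue classes. -/
theorem pmean_U {p κ : ℕ} {E P O : ℝ} {c b : ℕ → ℝ} (hC : Cert p κ E P O c b)
    (hE : 0 < E) (hP : 0 < P) (hO : 0 < O) {C : ℝ} (hC0 : 0 < C)
    (hCmax : ∀ t, t < 3 ^ (κ + 1) → c t ≤ C) (X : ℝ) (f : ℕ) :
    ∀ (K j : ℕ) (ρ : ℝ) (m : ℕ), K ≤ j → m < 3 ^ (κ + 1) →
      ∑ s ∈ Finset.range (3 ^ j), (U E P O X 1 f K ρ (m + 3 ^ (κ + 1) * s))⁻¹ ^ p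
        ≤ 3 ^ j * (c m / C)⁻¹ ^ p := by
  have base : ∀ (j m : ℕ), m < 3 ^ (κ + 1) →
      ∑ s ∈ Finset.range (3 ^ j), (1 : ℝ)⁻¹ ^ p ≤ 3 ^ j * (c m / C)⁻¹ ^ p := by
    intro j m hm
    have h1 : c m / C ≤ 1 := (div_le_one hC0).2 (hCmax m hm)
    have h2 : 0 < c m / C := div_pos (hC.c_pos m hm) hC0
    have h3 : 1 ≤ (c m / C)⁻¹ := (one_le_inv₀ h2).2 h1
    simp only [inv_one, one_pow, Finset.sum_const, Finset.card_range, nsmul_eq_mul, mul_one]
    push_cast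
    have h4 : 1 ≤ (c m / C)⁻¹ ^ p := one_le_pow₀ h3
    nlinarith [show (0 : ℝ) < 3 ^ j by positivity]
  induction f with
  | zero =>
    intro K j ρ m _ hm
    simp only [U]
    exact base j m hm
  | succ f ih =>
    intro K j ρ m hKj hm
    match K, hKj with
    | 0, _ =>
      simp only [U, ite_self]
      exact base j m hm
    | K + 1, hKj =>
      by_cases hX : X ≤ ρ
      · simp only [U, if_pos hX]
        exact base j m hm
      simp only [U, if_neg hX]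
      have hU : ∀ K ρ t, 0 < U E P O X 1 f K ρ t := U_pos hE hP hO one_pos f
      -- the even child
      have hEsum : ∑ s ∈ Finset.range (3 ^ j),
          (E * U E P O X 1 f (K + 1) (4 * ρ) (4 * (m + 3 ^ (κ + 1) * s) + 2))⁻¹ ^ p
          ≤ 3 ^ j * (E * (c ((4 * m + 2) % 3 ^ (κ + 1)) / C))⁻¹ ^ p := by
        apply pmean_smul _ _ _ _ _ _ hE
        rw [sum_class_E (fun t => (U E P O X 1 f (K + 1) (4 * ρ) t)⁻¹ ^ p) (κ + 1) j (K + 1) m hKj
          4 2 (by norm_num) (fun x y hxy => by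
            rw [U_periodic E P O X 1 f (K + 1) (4 * ρ) x y hxy])]
        exact ih (K + 1) j (4 * ρ) _ hKj (Nat.mod_lt _ (by positivity))
      -- the odd child
      have hOdd : ∀ (w ρ' : ℝ) (a d q : ℕ), 0 < w → a % 3 ≠ 0 →
          ∑ s ∈ Finset.range (3 ^ j),
            (w * U E P O X 1 f K ρ' (a * (q + 3 ^ κ * s) + d))⁻¹ ^ p
          ≤ 3 ^ j * (w * (b ((a * q + d) % 3 ^ κ) / C))⁻¹ ^ p := by
        intro w ρ' a d q hw ha
        apply pmean_smul _ _ _ _ _ _ hw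
        rw [sum_class_E (fun t => (U E P O X 1 f K ρ' t)⁻¹ ^ p) κ j K q (by omega)
          a d ha (fun x y hxy => by rw [U_periodic E P O X 1 f K ρ' x y hxy])]
        obtain ⟨j', rfl⟩ : ∃ j', j = j' + 1 := ⟨j - 1, by omega⟩
        set μ := (a * q + d) % 3 ^ κ with hμ
        have hμlt : μ < 3 ^ κ := Nat.mod_lt _ (by positivity)
        rw [pow_succ' 3 j', sum_range_three_mul]
        have e0 : ∀ s, μ + 3 ^ κ * (3 * s) = μ + 3 ^ (κ + 1) * s := fun s => by ring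
        have e1 : ∀ s, μ + 3 ^ κ * (3 * s + 1) = (μ + 3 ^ κ) + 3 ^ (κ + 1) * s := fun s => by ring
        have e2 : ∀ s, μ + 3 ^ κ * (3 * s + 2) = (μ + 2 * 3 ^ κ) + 3 ^ (κ + 1) * s :=
          fun s => by ring
        simp only [e0, e1, e2]
        have hκ : 3 ^ (κ + 1) = 3 * 3 ^ κ := pow_succ' 3 κ
        have i0 := ih K j' ρ' μ (by omega) (by omega)
        have i1 := ih K j' ρ' (μ + 3 ^ κ) (by omega) (by omega)
        have i2 := ih K j' ρ' (μ + 2 * 3 ^ κ) (by omega) (by omega)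
        have hmm := hC.hm μ hμlt
        have hdiv : ∀ x : ℝ, (x / C)⁻¹ ^ p = C ^ p * x⁻¹ ^ p := fun x => by
          rw [← mul_pow]; congr 1; rw [inv_div]; rfl
        rw [hdiv] at i0 i1 i2 ⊢
        have hCp : 0 < C ^ p := by positivity
        have h3 : (0 : ℝ) < 3 ^ j' := by positivity
        calc _ ≤ 3 ^ j' * (C ^ p * (c μ)⁻¹ ^ p) + 3 ^ j' * (C ^ p * (c (μ + 3 ^ κ))⁻¹ ^ p)
              + 3 ^ j' * (C ^ p * (c (μ + 2 * 3 ^ κ))⁻¹ ^ p) := by linarith
          _ = 3 ^ j' * C ^ p * ((c μ)⁻¹ ^ p + (c (μ + 3 ^ κ))⁻¹ ^ p + (c (μ + 2 * 3 ^ κ))⁻¹ ^ p) := by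
              ring
          _ ≤ 3 ^ j' * C ^ p * (3 * (b μ)⁻¹ ^ p) := by gcongr
          _ = _ := by ring
      have hcE : 0 < E * (c ((4 * m + 2) % 3 ^ (κ + 1)) / C) :=
        mul_pos hE (div_pos (hC.c_pos _ (Nat.mod_lt _ (by positivity))) hC0)
      have mono : ∀ x y : ℝ, 0 < x → x ≤ y → (3 : ℝ) ^ j * y⁻¹ ^ p ≤ 3 ^ j * x⁻¹ ^ p := by
        intro x y hx hxy
        have : y⁻¹ ≤ x⁻¹ := inv_anti₀ hx hxy
        have hy : 0 ≤ y⁻¹ := by have := hx.trans_le hxy; positivity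
        gcongr
      obtain ⟨q, hq | hq | hq⟩ : ∃ q, m = 3 * q ∨ m = 3 * q + 1 ∨ m = 3 * q + 2 :=
        ⟨m / 3, by omega⟩
      · -- type 0
        have hq' : q < 3 ^ κ := by rw [pow_succ'] at hm; omega
        have et : ∀ s, (m + 3 ^ (κ + 1) * s) % 3 = 0 := fun s => by
          rw [hq, pow_succ', mul_assoc]; omega
        have ed : ∀ s, (m + 3 ^ (κ + 1) * s) / 3 = q + 3 ^ κ * s := fun s => by
          rw [hq, pow_succ', mul_assoc, ← Nat.mul_add, Nat.mul_div_cancel_left _ (by norm_num)]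
        simp only [et, if_true, ed]
        have hb : 0 < P * (b ((4 * q + 0) % 3 ^ κ) / C) :=
          mul_pos hP (div_pos (hC.b_pos _ (Nat.mod_lt _ (by positivity))) hC0)
        have hO' := hOdd P (4 * ρ / 3) 4 0 q hP (by norm_num)
        simp only [add_zero] at hO' hb
        refine (pmean_add _ _ _ p _ _ _ (fun i _ => mul_pos hE (hU _ _ _))
          (fun i _ => mul_pos hP (hU _ _ _)) hcE hb hEsum hO').trans (mono _ _ ?_ ?_)
        · exact div_pos (hC.c_pos m hm) hC0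
        · have := hC.h0 q hq'
          rw [← hq] at this
          rw [mul_div_assoc', mul_div_assoc', ← add_div]
          gcongr
      · -- type 1
        have hq' : q < 3 ^ κ := by rw [pow_succ'] at hm; omega
        have et : ∀ s, (m + 3 ^ (κ + 1) * s) % 3 = 1 := fun s => by
          rw [hq, pow_succ', mul_assoc]; omega
        simp only [et, one_ne_zero, if_false, OfNat.one_ne_ofNat, add_zero]
        refine hEsum.trans (mono _ _ ?_ ?_)
        · exact div_pos (hC.c_pos m hm) hC0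
        · have := hC.h1 q hq'
          rw [← hq] at this
          rw [mul_div_assoc']
          gcongr
      · -- type 2
        have hq' : q < 3 ^ κ := by rw [pow_succ'] at hm; omega
        have et : ∀ s, (m + 3 ^ (κ + 1) * s) % 3 = 2 := fun s => by
          rw [hq, pow_succ', mul_assoc]; omega
        have ed : ∀ s, (m + 3 ^ (κ + 1) * s) / 3 = q + 3 ^ κ * s := fun s => by
          rw [hq, pow_succ', mul_assoc]; omega
        simp only [et, ed, OfNat.ofNat_ne_zero, if_false, if_true]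
        have hb : 0 < O * (b ((2 * q + 1) % 3 ^ κ) / C) :=
          mul_pos hO (div_pos (hC.b_pos _ (Nat.mod_lt _ (by positivity))) hC0)
        have hO' := hOdd O (2 * ρ / 3) 2 1 q hO (by norm_num)
        refine (pmean_add _ _ _ p _ _ _ (fun i _ => mul_pos hE (hU _ _ _))
          (fun i _ => mul_pos hO (hU _ _ _)) hcE hb hEsum hO').trans (mono _ _ ?_ ?_)
        · exact div_pos (hC.c_pos m hm) hC0
        · have := hC.h2 q hq'
          rw [← hq] at this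
          rw [mul_div_assoc', mul_div_assoc', ← add_div]
          gcongr

end Pool.Agent.Helper14
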