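import Mathlib

set_option autoImplicit false
set_option linter.unusedVariables false

namespace Pool.Agent.Helper14

/-- The `3x+1` function on the natural numbers. -/
def col (n : ℕ) : ℕ := if n % 2 = 0 then n / 2 else (3 * n + 1) / 2

/-- `n` reaches `b` under iteration. -/
def Reach (b n : ℕ) : Prop := ∃ i, col^[i] n = b

/-- `b` is not periodic. -/
def NP (b : ℕ) : Prop := ∀ i, col^[i + 1] b ≠ b

lemma Reach.refl (b : ℕ) : Reach b b := ⟨0, rfl⟩

lemma Reach.trans {a b c : ℕ} (h1 : Reach a b) (h2 : Reach b c) : Reach a c := by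
  obtain ⟨i, hi⟩ := h1
  obtain ⟨j, hj⟩ := h2
  exact ⟨i + j, by rw [Function.iterate_add_apply, hj, hi]⟩

lemma reach_total {a b n : ℕ} (ha : Reach a n) (hb : Reach b n) : Reach a b ∨ Reach b a := by
  obtain ⟨i, hi⟩ := ha
  obtain ⟨j, hj⟩ := hb
  rcases le_total i j with h | h
  · right
    refine ⟨j - i, ?_⟩
    rw [← hi, ← Function.iterate_add_apply, Nat.sub_add_cancel h, hj]
  · left
    refine ⟨i - j, ?_⟩
    rw [← hj, ← Function.iterate_add_apply, Nat.sub_add_cancel h, hi]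

lemma NP.of_reach {b n : ℕ} (hb : NP b) (h : Reach b n) : NP n := by
  obtain ⟨i, hi⟩ := h
  intro m hm
  apply hb m
  rw [← hi, ← Function.iterate_add_apply, Nat.add_comm, Function.iterate_add_apply, hm]

lemma NP.antisymm {a b : ℕ} (ha : NP a) (h1 : Reach a b) (h2 : Reach b a) : a = b := by
  obtain ⟨i, hi⟩ := h1
  obtain ⟨j, hj⟩ := h2
  rcases Nat.eq_zero_or_pos (i + j) with h | h
  · have : i = 0 := by omega
    subst this
    exact hi.symm
  · exfalso
    apply ha (i + j - 1)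
    rw [Nat.sub_add_cancel h, Function.iterate_add_apply, hj, hi]

structure Nice (r b : ℕ) : Prop where
  mod : b % 3 = 2
  np : NP b
  reach : Reach r b

lemma Nice.of_reach {r b c : ℕ} (hb : Nice r b) (h : Reach b c) (hc : c % 3 = 2) : Nice r c :=
  ⟨hc, hb.np.of_reach h, hb.reach.trans h⟩

lemma col_two_mul (n : ℕ) : col (2 * n) = n := by
  unfold col; rw [if_pos (by omega)]; omega

lemma col_odd {n : ℕ} (h : n % 2 = 1) : col n = (3 * n + 1) / 2 := by
  unfold col; rw [if_neg (by omega)]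

lemma reach_four_mul (b : ℕ) : Reach b (4 * b) := by
  refine ⟨2, ?_⟩
  show col (col (4 * b)) = b
  rw [show 4 * b = 2 * (2 * b) by ring, col_two_mul, col_two_mul]

lemma reach_E (t : ℕ) : Reach (3 * t + 2) (3 * (4 * t + 2) + 2) := by
  have := reach_four_mul (3 * t + 2)
  rwa [show 4 * (3 * t + 2) = 3 * (4 * t + 2) + 2 by ring] at this

lemma col_P1 (q : ℕ) : col (3 * (4 * q) + 2) = 6 * q + 1 := by
  rw [show 3 * (4 * q) + 2 = 2 * (6 * q + 1) by ring, col_two_mul]

lemma col_P2 (q : ℕ) : col (6 * q + 1) = 3 * (3 * q) + 2 := by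
  rw [col_odd (by omega)]; omega

lemma reach_P (q : ℕ) : Reach (3 * (3 * q) + 2) (3 * (4 * q) + 2) := by
  refine ⟨2, ?_⟩
  show col (col (3 * (4 * q) + 2)) = _
  rw [col_P1, col_P2]

lemma col_O (q : ℕ) : col (3 * (2 * q + 1) + 2) = 3 * (3 * q + 2) + 2 := by
  rw [col_odd (by omega)]; omega

lemma reach_O (q : ℕ) : Reach (3 * (3 * q + 2) + 2) (3 * (2 * q + 1) + 2) :=
  ⟨1, col_O q⟩

/-- The two children of a nonperiodic node are incomparable (case `t = 3q`). -/
lemma incomp_P {q : ℕ} (h : NP (3 * (3 * q) + 2)) :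
    ¬ Reach (3 * (4 * (3 * q) + 2) + 2) (3 * (4 * q) + 2) ∧
      ¬ Reach (3 * (4 * q) + 2) (3 * (4 * (3 * q) + 2) + 2) := by
  obtain ⟨⟩ : True := trivial
  have hE : col^[2] (3 * (4 * (3 * q) + 2) + 2) = 3 * (3 * q) + 2 := by
    show col (col (3 * (4 * (3 * q) + 2) + 2)) = _
    rw [show 3 * (4 * (3 * q) + 2) + 2 = 2 * (2 * (3 * (3 * q) + 2)) by ring, col_two_mul,
      col_two_mul]
  have hE1 : col (3 * (4 * (3 * q) + 2) + 2) = 2 * (3 * (3 * q) + 2) := by
    rw [show 3 * (4 * (3 * q) + 2) + 2 = 2 * (2 * (3 * (3 * q) + 2)) by ring, col_two_mul]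
  have hP : col^[2] (3 * (4 * q) + 2) = 3 * (3 * q) + 2 := by
    show col (col (3 * (4 * q) + 2)) = _
    rw [col_P1, col_P2]
  constructor
  · rintro ⟨i, hi⟩
    match i, hi with
    | 0, hi => simp only [Function.iterate_zero, id] at hi; omega
    | 1, hi => simp only [Function.iterate_one] at hi; rw [col_P1] at hi; omega
    | i + 2, hi =>
      rw [Function.iterate_add_apply, hP] at hi
      apply h (i + 1)
      rw [show i + 1 + 1 = 2 + i by ring, Function.iterate_add_apply, hi, hE]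
  · rintro ⟨i, hi⟩
    match i, hi with
    | 0, hi => simp only [Function.iterate_zero, id] at hi; omega
    | 1, hi => simp only [Function.iterate_one] at hi; rw [hE1] at hi; omega
    | i + 2, hi =>
      rw [Function.iterate_add_apply, hE] at hi
      apply h (i + 1)
      rw [show i + 1 + 1 = 2 + i by ring, Function.iterate_add_apply, hi, hP]

/-- The two children of a nonperiodic node are incomparable (case `t = 3q + 2`). -/
lemma incomp_O {q : ℕ} (h : NP (3 * (3 * q + 2) + 2)) :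
    ¬ Reach (3 * (4 * (3 * q + 2) + 2) + 2) (3 * (2 * q + 1) + 2) ∧
      ¬ Reach (3 * (2 * q + 1) + 2) (3 * (4 * (3 * q + 2) + 2) + 2) := by
  have hE : col^[2] (3 * (4 * (3 * q + 2) + 2) + 2) = 3 * (3 * q + 2) + 2 := by
    show col (col (3 * (4 * (3 * q + 2) + 2) + 2)) = _
    rw [show 3 * (4 * (3 * q + 2) + 2) + 2 = 2 * (2 * (3 * (3 * q + 2) + 2)) by ring, col_two_mul,
      col_two_mul]
  have hE1 : col (3 * (4 * (3 * q + 2) + 2) + 2) = 2 * (3 * (3 * q + 2) + 2) := by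
    rw [show 3 * (4 * (3 * q + 2) + 2) + 2 = 2 * (2 * (3 * (3 * q + 2) + 2)) by ring, col_two_mul]
  constructor
  · rintro ⟨i, hi⟩
    match i, hi with
    | 0, hi => simp only [Function.iterate_zero, id] at hi; omega
    | i + 1, hi =>
      rw [Function.iterate_add_apply, Function.iterate_one, col_O] at hi
      apply h (i + 1)
      rw [show i + 1 + 1 = 2 + i by ring, Function.iterate_add_apply, hi, hE]
  · rintro ⟨i, hi⟩
    match i, hi with
    | 0, hi => simp only [Function.iterate_zero, id] at hi; omega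
    | 1, hi => simp only [Function.iterate_one] at hi; rw [hE1] at hi; omega
    | i + 2, hi =>
      rw [Function.iterate_add_apply, hE] at hi
      apply h i
      rw [show i + 1 = 1 + i by ring, Function.iterate_add_apply, hi, Function.iterate_one, col_O]

/-- Incomparable nodes have disjoint trees. -/
lemma disj_of_incomp {a b n : ℕ} (h : ¬ Reach a b ∧ ¬ Reach b a) (ha : Reach a n) : ¬ Reach b n :=
  fun hb => (reach_total ha hb).elim h.1 h.2

/-- Superadditive functions on the tree of nice nodes, indexed by `t` with node `3t+2`. -/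
structure SuperAdd (r : ℕ) (ψ : ℕ → ℝ) : Prop where
  nonneg : ∀ t, 0 ≤ ψ t
  h0 : ∀ q, Nice r (3 * (3 * q) + 2) → ψ (4 * (3 * q) + 2) + ψ (4 * q) ≤ ψ (3 * q)
  h1 : ∀ q, Nice r (3 * (3 * q + 1) + 2) → ψ (4 * (3 * q + 1) + 2) ≤ ψ (3 * q + 1)
  h2 : ∀ q, Nice r (3 * (3 * q + 2) + 2) → ψ (4 * (3 * q + 2) + 2) + ψ (2 * q + 1) ≤ ψ (3 * q + 2)

/-- Finite antichains of nice nodes. -/
structure AC (r : ℕ) (A : Finset ℕ) : Prop where
  nice : ∀ a ∈ A, Nice r a
  anti : ∀ a ∈ A, ∀ b ∈ A, Reach a b → a = b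

/-- All finite antichains of nice nodes have bounded weight at exponent `σ`. -/
def FinW (r : ℕ) (σ : ℝ) : Prop :=
  ∃ M : ℝ, ∀ A : Finset ℕ, AC r A → ∑ a ∈ A, (a : ℝ) ^ (-σ) ≤ M

lemma Nice.pos {r b : ℕ} (h : Nice r b) : 2 ≤ b := by
  have := h.mod; omega

lemma FinW.mono {r : ℕ} {σ σ' : ℝ} (h : σ ≤ σ') (hF : FinW r σ) : FinW r σ' := by
  obtain ⟨M, hM⟩ := hF
  refine ⟨M, fun A hA => (Finset.sum_le_sum fun a ha => ?_).trans (hM A hA)⟩
  have : (1 : ℝ) ≤ a := by
    have := (hA.nice a ha).pos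
    exact_mod_cast (by omega : 1 ≤ a)
  exact Real.rpow_le_rpow_of_exponent_le this (by linarith)

lemma AC.subset {r : ℕ} {A B : Finset ℕ} (hA : AC r A) (h : B ⊆ A) : AC r B :=
  ⟨fun a ha => hA.nice a (h ha), fun a ha b hb => hA.anti a (h ha) b (h hb)⟩

/-- Two incomparable nice nodes below every nice node. -/
lemma exists_two {r b : ℕ} (hb : Nice r b) :
    ∃ b1 b2, Nice r b1 ∧ Nice r b2 ∧ Reach b b1 ∧ Reach b b2 ∧ ¬ Reach b1 b2 ∧ ¬ Reach b2 b1 := by
  obtain ⟨t, rfl⟩ : ∃ t, b = 3 * t + 2 := ⟨b / 3, by have := hb.mod; omega⟩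
  have key : ∀ q, Nice r (3 * (3 * q) + 2) → ∃ b1 b2, Nice r b1 ∧ Nice r b2 ∧
      Reach (3 * (3 * q) + 2) b1 ∧ Reach (3 * (3 * q) + 2) b2 ∧ ¬ Reach b1 b2 ∧ ¬ Reach b2 b1 := by
    intro q hq
    have h := incomp_P hq.np
    exact ⟨_, _, hq.of_reach (reach_E _) (by omega), hq.of_reach (reach_P _) (by omega),
      reach_E _, reach_P _, h.1, h.2⟩
  obtain ⟨q, h | h | h⟩ : ∃ q, t = 3 * q ∨ t = 3 * q + 1 ∨ t = 3 * q + 2 := ⟨t / 3, by omega⟩
  · subst h
    exact key q hb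
  · subst h
    have h1 : Nice r (3 * (3 * (4 * q + 2)) + 2) := by
      have := hb.of_reach (reach_E _) (by omega)
      rwa [show 3 * (4 * (3 * q + 1) + 2) + 2 = 3 * (3 * (4 * q + 2)) + 2 by ring] at this
    obtain ⟨b1, b2, n1, n2, r1, r2, i1, i2⟩ := key _ h1
    have h2 : Reach (3 * (3 * q + 1) + 2) (3 * (3 * (4 * q + 2)) + 2) := by
      have := reach_E (3 * q + 1)
      rwa [show 3 * (4 * (3 * q + 1) + 2) + 2 = 3 * (3 * (4 * q + 2)) + 2 by ring] at this
    exact ⟨b1, b2, n1, n2, h2.trans r1, h2.trans r2, i1, i2⟩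
  · subst h
    have h := incomp_O hb.np
    exact ⟨_, _, hb.of_reach (reach_E _) (by omega), hb.of_reach (reach_O _) (by omega),
      reach_E _, reach_O _, h.1, h.2⟩

lemma exists_AC_card {r : ℕ} (n : ℕ) : ∀ b, Nice r b →
    ∃ A : Finset ℕ, AC r A ∧ (∀ a ∈ A, Reach b a) ∧ A.card = n + 1 := by
  induction n with
  | zero =>
    intro b hb
    refine ⟨{b}, ⟨?_, ?_⟩, ?_, by simp⟩
    · intro a ha; rw [Finset.mem_singleton] at ha; rw [ha]; exact hb
    · intro a ha c hc _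
      rw [Finset.mem_singleton] at ha hc; rw [ha, hc]
    · intro a ha; rw [Finset.mem_singleton] at ha; rw [ha]; exact Reach.refl _
  | succ n ih =>
    intro b hb
    obtain ⟨b1, b2, n1, n2, r1, r2, i1, i2⟩ := exists_two hb
    obtain ⟨A, hA, hAr, hAc⟩ := ih b1 n1
    have hnot : ∀ a ∈ A, ¬ Reach b2 a := fun a ha => disj_of_incomp ⟨i1, i2⟩ (hAr a ha)
    have hnot' : ∀ a ∈ A, ¬ Reach a b2 := fun a ha h => i1 ((hAr a ha).trans h)
    have hb2 : b2 ∉ A := fun h => hnot b2 h (Reach.refl _)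
    refine ⟨insert b2 A, ⟨?_, ?_⟩, ?_, ?_⟩
    · intro a ha
      rcases Finset.mem_insert.1 ha with h | h
      · rw [h]; exact n2
      · exact hA.nice a h
    · intro a ha c hc hac
      rcases Finset.mem_insert.1 ha with h | h <;> rcases Finset.mem_insert.1 hc with h' | h'
      · rw [h, h']
      · subst h; exact absurd hac (hnot c h')
      · subst h'; exact absurd hac (hnot' a h)
      · exact hA.anti a h c h' hac
    · intro a ha
      rcases Finset.mem_insert.1 ha with h | h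
      · rw [h]; exact r2
      · exact r1.trans (hAr a h)
    · rw [Finset.card_insert_of_notMem hb2, hAc]

lemma not_finW_zero {r : ℕ} (hr : Nice r r) : ¬ FinW r 0 := by
  rintro ⟨M, hM⟩
  obtain ⟨n, hn⟩ := exists_nat_gt M
  obtain ⟨A, hA, -, hc⟩ := exists_AC_card (r := r) n r hr
  have := hM A hA
  simp only [neg_zero, Real.rpow_zero, Finset.sum_const, nsmul_eq_mul, mul_one, hc] at this
  push_cast at this
  linarith

lemma nice_eight : Nice 8 8 := by
  refine ⟨by norm_num, ?_, Reach.refl _⟩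
  have : ∀ i, col^[i + 1] 8 = 4 ∨ col^[i + 1] 8 = 2 ∨ col^[i + 1] 8 = 1 := by
    intro i
    induction i with
    | zero => left; rfl
    | succ i ih =>
      rw [Function.iterate_succ_apply']
      rcases ih with h | h | h <;> rw [h] <;> decide
  intro i hi
  rcases this i with h | h | h <;> omega

/-! ### The supremum over antichains below a node -/

/-- The set of weights of antichains below `b`. -/
def wts (r : ℕ) (σ : ℝ) (b : ℕ) : Set ℝ :=
  {x | ∃ A : Finset ℕ, AC r A ∧ (∀ a ∈ A, Reach b a) ∧ x = ∑ a ∈ A, (a : ℝ) ^ (-σ)}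

lemma AC.empty (r : ℕ) : AC r ∅ := ⟨by simp, by simp⟩

lemma zero_mem_wts (r : ℕ) (σ : ℝ) (b : ℕ) : (0 : ℝ) ∈ wts r σ b :=
  ⟨∅, AC.empty r, by simp, by simp⟩

/-- The supremum of the weights of antichains below `b`. -/
noncomputable def supW (r : ℕ) (σ : ℝ) (b : ℕ) : ℝ := sSup (wts r σ b)

lemma bddAbove_wts {r : ℕ} {σ M : ℝ} (hM : ∀ A : Finset ℕ, AC r A → ∑ a ∈ A, (a : ℝ) ^ (-σ) ≤ M)
    (b : ℕ) : BddAbove (wts r σ b) := by
  refine ⟨M, ?_⟩
  rintro x ⟨A, hA, -, rfl⟩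
  exact hM A hA

/-- Union of antichains below incomparable nodes. -/
lemma AC.union {r : ℕ} {A B : Finset ℕ} (hA : AC r A) (hB : AC r B)
    (h1 : ∀ a ∈ A, ∀ b ∈ B, ¬ Reach a b) (h2 : ∀ a ∈ A, ∀ b ∈ B, ¬ Reach b a) :
    AC r (A ∪ B) ∧ Disjoint A B := by
  refine ⟨⟨?_, ?_⟩, ?_⟩
  · intro a ha
    rcases Finset.mem_union.1 ha with h | h
    · exact hA.nice a h
    · exact hB.nice a h
  · intro a ha b hb hab
    rcases Finset.mem_union.1 ha with h | h <;> rcases Finset.mem_union.1 hb with h' | h'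
    · exact hA.anti a h b h' hab
    · exact absurd hab (h1 a h b h')
    · exact absurd hab (h2 b h' a h)
    · exact hB.anti a h b h' hab
  · rw [Finset.disjoint_left]
    intro a ha hb
    exact h1 a ha a hb (Reach.refl _)

lemma supW_add_le {r : ℕ} {σ M : ℝ} (hM : ∀ A : Finset ℕ, AC r A → ∑ a ∈ A, (a : ℝ) ^ (-σ) ≤ M)
    {b c d : ℕ} (h : ¬ Reach c d ∧ ¬ Reach d c) (hc : Reach b c) (hd : Reach b d) :
    supW r σ c + supW r σ d ≤ supW r σ b := by
  have key : supW r σ c ≤ supW r σ b - supW r σ d := by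
    apply csSup_le ⟨0, zero_mem_wts r σ c⟩
    rintro x ⟨A, hA, hAc, rfl⟩
    have : supW r σ d ≤ supW r σ b - ∑ a ∈ A, (a : ℝ) ^ (-σ) := by
      apply csSup_le ⟨0, zero_mem_wts r σ d⟩
      rintro y ⟨B, hB, hBd, rfl⟩
      obtain ⟨hU, hdis⟩ := hA.union hB
        (fun a ha e he hae => disj_of_incomp h ((hAc a ha).trans hae) (hBd e he))
        (fun a ha e he hea => disj_of_incomp h (hAc a ha) ((hBd e he).trans hea))
      have : ∑ a ∈ A ∪ B, (a : ℝ) ^ (-σ) ≤ supW r σ b := by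
        apply le_csSup (bddAbove_wts hM b)
        refine ⟨A ∪ B, hU, ?_, rfl⟩
        intro a ha
        rcases Finset.mem_union.1 ha with h | h
        · exact hc.trans (hAc a h)
        · exact hd.trans (hBd a h)
      rw [Finset.sum_union hdis] at this
      linarith
    linarith
  linarith

lemma supW_mono {r : ℕ} {σ M : ℝ} (hM : ∀ A : Finset ℕ, AC r A → ∑ a ∈ A, (a : ℝ) ^ (-σ) ≤ M)
    {b c : ℕ} (hc : Reach b c) : supW r σ c ≤ supW r σ b := by
  apply csSup_le_csSup (bddAbove_wts hM b) ⟨0, zero_mem_wts r σ c⟩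
  rintro x ⟨A, hA, hAc, rfl⟩
  exact ⟨A, hA, fun a ha => hc.trans (hAc a ha), rfl⟩

lemma supW_nonneg {r : ℕ} {σ M : ℝ} (hM : ∀ A : Finset ℕ, AC r A → ∑ a ∈ A, (a : ℝ) ^ (-σ) ≤ M)
    (b : ℕ) : 0 ≤ supW r σ b := le_csSup (bddAbove_wts hM b) (zero_mem_wts r σ b)

lemma le_supW {r : ℕ} {σ M : ℝ} (hM : ∀ A : Finset ℕ, AC r A → ∑ a ∈ A, (a : ℝ) ^ (-σ) ≤ M)
    {b : ℕ} (hb : Nice r b) : (b : ℝ) ^ (-σ) ≤ supW r σ b := by
  apply le_csSup (bddAbove_wts hM b)
  refine ⟨{b}, ⟨?_, ?_⟩, ?_, by simp⟩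
  · intro a ha; rw [Finset.mem_singleton] at ha; rw [ha]; exact hb
  · intro a ha c hc _
    rw [Finset.mem_singleton] at ha hc; rw [ha, hc]
  · intro a ha; rw [Finset.mem_singleton] at ha; rw [ha]; exact Reach.refl _

lemma superAdd_supW {r : ℕ} {σ M : ℝ}
    (hM : ∀ A : Finset ℕ, AC r A → ∑ a ∈ A, (a : ℝ) ^ (-σ) ≤ M) :
    SuperAdd r (fun t => supW r σ (3 * t + 2)) where
  nonneg t := supW_nonneg hM _
  h0 q hq := supW_add_le hM (And.symm (And.symm (incomp_P hq.np))) (reach_E _) (reach_P _)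
  h1 q hq := supW_mono hM (reach_E _)
  h2 q hq := supW_add_le hM (incomp_O hq.np) (reach_E _) (reach_O _)

lemma sum_supW_add_le {r : ℕ} {σ M : ℝ}
    (hM : ∀ A : Finset ℕ, AC r A → ∑ a ∈ A, (a : ℝ) ^ (-σ) ≤ M) (A : Finset ℕ) :
    AC r A → ∀ B : Finset ℕ, AC r B → (∀ a ∈ A, ∀ b ∈ B, ¬ Reach a b ∧ ¬ Reach b a) →
      ∑ a ∈ A, supW r σ a + ∑ b ∈ B, (b : ℝ) ^ (-σ) ≤ M := by
  classical
  induction A using Finset.induction_on with
  | empty => intro _ B hB _; simpa using hM B hB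
  | insert a A ha ih =>
    intro hA B hB hinc
    rw [Finset.sum_insert ha]
    have hAsub : AC r A := hA.subset (Finset.subset_insert a A)
    suffices h : supW r σ a ≤ M - (∑ x ∈ A, supW r σ x + ∑ b ∈ B, (b : ℝ) ^ (-σ)) by linarith
    apply csSup_le ⟨0, zero_mem_wts r σ a⟩
    rintro x ⟨S, hS, hSa, rfl⟩
    have hainc : ∀ y ∈ A, ¬ Reach a y ∧ ¬ Reach y a := by
      intro y hy
      constructor
      · intro h
        have := hA.anti a (Finset.mem_insert_self _ _) y (Finset.mem_insert_of_mem hy) h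
        exact ha (this ▸ hy)
      · intro h
        have := hA.anti y (Finset.mem_insert_of_mem hy) a (Finset.mem_insert_self _ _) h
        exact ha (this ▸ hy)
    have hincS : ∀ c, (¬ Reach a c ∧ ¬ Reach c a) → ∀ s ∈ S, ¬ Reach c s ∧ ¬ Reach s c := by
      intro c hc s hs
      exact ⟨disj_of_incomp hc (hSa s hs), fun h => hc.1 ((hSa s hs).trans h)⟩
    have hBS : ∀ b ∈ B, ∀ s ∈ S, ¬ Reach b s ∧ ¬ Reach s b := fun b hb =>
      hincS b (hinc a (Finset.mem_insert_self _ _) b hb)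
    obtain ⟨hU, hdis⟩ := hB.union hS (fun b hb s hs => (hBS b hb s hs).1)
      (fun b hb s hs => (hBS b hb s hs).2)
    have := ih hAsub (B ∪ S) hU (by
      intro y hy z hz
      rcases Finset.mem_union.1 hz with h | h
      · exact hinc y (Finset.mem_insert_of_mem hy) z h
      · exact hincS y (hainc y hy) z h)
    rw [Finset.sum_union hdis] at this
    linarith

lemma sum_supW_le {r : ℕ} {σ M : ℝ}
    (hM : ∀ A : Finset ℕ, AC r A → ∑ a ∈ A, (a : ℝ) ^ (-σ) ≤ M) {A : Finset ℕ} (hA : AC r A) :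
    ∑ a ∈ A, supW r σ a ≤ M := by
  have := sum_supW_add_le hM A hA ∅ (AC.empty r) (by simp)
  simpa using this

/-! ### Masses of trees -/

open Classical in
/-- The mass of the part of the tree of `b` inside `S`. -/
noncomputable def mass (w : ℕ → ℝ) (S : Finset ℕ) (b : ℕ) : ℝ := ∑ n ∈ S with Reach b n, w n

lemma mass_nonneg {w : ℕ → ℝ} (hw : ∀ n, 0 ≤ w n) (S : Finset ℕ) (b : ℕ) : 0 ≤ mass w S b :=
  Finset.sum_nonneg fun n _ => hw n

lemma mass_add_le {w : ℕ → ℝ} (hw : ∀ n, 0 ≤ w n) (S : Finset ℕ) {b c d : ℕ}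
    (h : ¬ Reach c d ∧ ¬ Reach d c) (hc : Reach b c) (hd : Reach b d) :
    mass w S c + mass w S d ≤ mass w S b := by
  classical
  unfold mass
  rw [← Finset.sum_union]
  · apply Finset.sum_le_sum_of_subset_of_nonneg
    · intro n hn
      rcases Finset.mem_union.1 hn with h | h <;> rw [Finset.mem_filter] at h ⊢
      · exact ⟨h.1, hc.trans h.2⟩
      · exact ⟨h.1, hd.trans h.2⟩
    · intro n _ _; exact hw n
  · rw [Finset.disjoint_left]
    intro n hn hn'
    rw [Finset.mem_filter] at hn hn'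
    exact disj_of_incomp h hn.2 hn'.2

lemma mass_mono {w : ℕ → ℝ} (hw : ∀ n, 0 ≤ w n) (S : Finset ℕ) {b c : ℕ} (hc : Reach b c) :
    mass w S c ≤ mass w S b := by
  classical
  unfold mass
  apply Finset.sum_le_sum_of_subset_of_nonneg
  · intro n hn
    rw [Finset.mem_filter] at hn ⊢
    exact ⟨hn.1, hc.trans hn.2⟩
  · intro n _ _; exact hw n

lemma superAdd_mass (r : ℕ) {w : ℕ → ℝ} (hw : ∀ n, 0 ≤ w n) (S : Finset ℕ) :
    SuperAdd r (fun t => mass w S (3 * t + 2)) where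
  nonneg t := mass_nonneg hw S _
  h0 q hq := mass_add_le hw S (incomp_P hq.np) (reach_E _) (reach_P _)
  h1 q hq := mass_mono hw S (reach_E _)
  h2 q hq := mass_add_le hw S (incomp_O hq.np) (reach_E _) (reach_O _)

lemma sum_mass_le {r : ℕ} {w : ℕ → ℝ} (hw : ∀ n, 0 ≤ w n) (S : Finset ℕ) {A : Finset ℕ}
    (hA : AC r A) : ∑ a ∈ A, mass w S a ≤ mass w S r := by
  classical
  unfold mass
  rw [← Finset.sum_biUnion]
  · apply Finset.sum_le_sum_of_subset_of_nonneg
    · intro n hn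
      obtain ⟨a, ha, hn⟩ := Finset.mem_biUnion.1 hn
      rw [Finset.mem_filter] at hn ⊢
      exact ⟨hn.1, (hA.nice a ha).reach.trans hn.2⟩
    · intro n _ _; exact hw n
  · intro a ha b hb hab
    rw [Function.onFun, Finset.disjoint_left]
    intro n hn hn'
    rw [Finset.mem_filter] at hn hn'
    rcases reach_total hn.2 hn'.2 with h | h
    · exact hab (hA.anti a ha b hb h)
    · exact hab (hA.anti b hb a ha h).symm

end Pool.Agent.Helper14
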